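import Pool.Agent.Work.MP_320b68_gt.Graph

-- merged part: Pool.Agent.Work.MP_320b68_gt.CircTop
section
/-!
Continuous logarithms, and the round circle in eight-space.
-/

namespace Pool.Agent.Work.MP_320b68_gt.Circ

open scoped ENNReal Topology NNReal
open Set Complex

/-- `F` has a continuous logarithm. -/
def HasLog {X : Type*} [TopologicalSpace X] (F : X → ℂ) : Prop :=
  ∃ Φ : X → ℂ, Continuous Φ ∧ ∀ x, exp (Φ x) = F x

theorem HasLog.of_homotopy {X : Type*} [TopologicalSpace X] (H : unitInterval × X → ℂ)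
    (hH : Continuous H) (h0 : ∀ p, H p ≠ 0) (h : HasLog fun x => H (0, x)) :
    HasLog fun x => H (1, x) := by
  obtain ⟨Φ, hΦ, e⟩ := h
  let H' : C(unitInterval × X, {z : ℂ // z ≠ 0}) := ⟨fun p => ⟨H p, h0 p⟩, hH.subtype_mk _⟩
  have h1 : ∀ a, H' (0, a) = (fun z : ℂ => (⟨exp z, exp_ne_zero z⟩ : {z : ℂ // z ≠ 0}))
      ((⟨Φ, hΦ⟩ : C(X, ℂ)) a) := fun a => Subtype.ext (e a).symm
  refine ⟨fun x => isCoveringMap_exp.liftHomotopy H' ⟨Φ, hΦ⟩ h1 (1, x), by fun_prop, fun x => ?_⟩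
  exact congrArg Subtype.val (congrFun (isCoveringMap_exp.liftHomotopy_lifts H' ⟨Φ, hΦ⟩ h1) (1, x))

theorem hasLog_real (F : ℝ → ℂ) (hF : Continuous F) (h0 : ∀ t, F t ≠ 0) : HasLog F := by
  have := HasLog.of_homotopy (fun p : unitInterval × ℝ => F (p.1 * p.2)) (by fun_prop)
    (fun _ => h0 _) ⟨fun _ => log (F 0), continuous_const, fun x => by simp [exp_log (h0 0)]⟩
  simpa using this

theorem const_of_exp {X : Type*} [TopologicalSpace X] {C : Set X} (hC : IsPreconnected C)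
    {D : X → ℂ} (hD : ContinuousOn D C) (h : ∀ x ∈ C, exp (D x) = 1) {p q : X} (hp : p ∈ C)
    (hq : q ∈ C) : D p = D q :=
  isCoveringMap_exp.constOn_of_comp hC hD
    (fun a ha b hb => Subtype.ext ((h a ha).trans (h b hb).symm)) hp hq

theorem exists_degree (F : ℝ → ℂ) (hF : Continuous F) (h0 : ∀ t, F t ≠ 0)
    (hp : ∀ t, F (t + 2 * Real.pi) = F t) : ∃ (φ : ℝ → ℂ) (a : ℤ), Continuous φ ∧
      (∀ t, exp (φ t) = F t) ∧ ∀ t, φ (t + 2 * Real.pi) = φ t + a * (2 * Real.pi * I) := by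
  obtain ⟨φ, hφ, e⟩ := hasLog_real F hF h0
  have h1 : ∀ t, exp (φ (t + 2 * Real.pi) - φ t) = 1 := fun t => by
    rw [exp_sub, e, e, hp, div_self (h0 t)]
  obtain ⟨a, ha⟩ := exp_eq_one_iff.1 (h1 0)
  refine ⟨φ, a, hφ, e, fun t => ?_⟩
  have := const_of_exp (D := fun t => φ (t + 2 * Real.pi) - φ t) isPreconnected_univ
    (by fun_prop) (fun x _ => h1 x) (mem_univ t) (mem_univ 0)
  rw [← ha, ← this]
  ring

/-- The ambient space. -/
abbrev E := EuclideanSpace ℝ (Fin 8)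

/-- The unit circle of the first coordinate plane. -/
def M : Set E := {x | x 0 ^ 2 + x 1 ^ 2 = 1 ∧ ∀ j : Fin 8, 2 ≤ j → x j = 0}

/-- The parametrisation of the circle. -/
noncomputable def cir (t : ℝ) : E := !₂[Real.cos t, Real.sin t, 0, 0, 0, 0, 0, 0]

/-- The first two coordinates as a complex number. -/
noncomputable def θ (x : E) : ℂ := x 0 + x 1 * I

theorem continuous_θ : Continuous θ := by
  unfold θ
  fun_prop

theorem continuous_cir : Continuous cir := by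
  unfold cir
  fun_prop

@[simp] theorem cir_zero (t : ℝ) : cir t 0 = Real.cos t := rfl
@[simp] theorem cir_one (t : ℝ) : cir t 1 = Real.sin t := rfl

theorem cir_mem (t : ℝ) : cir t ∈ M := by
  refine ⟨Real.cos_sq_add_sin_sq t, fun j hj => ?_⟩
  fin_cases j <;> first | rfl | simp at hj

theorem ext_M {p q : E} (hp : p ∈ M) (hq : q ∈ M) (h0 : p 0 = q 0) (h1 : p 1 = q 1) : p = q := by
  ext j
  by_cases hj : 2 ≤ j
  · rw [hp.2 j hj, hq.2 j hj]
  · fin_cases j <;> first | exact h0 | exact h1 | simp at hj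

theorem θ_cir (t : ℝ) : θ (cir t) = exp (t * I) := by
  rw [exp_mul_I]
  simp [θ]

theorem norm_θ {p : E} (hp : p ∈ M) : ‖θ p‖ = 1 := by
  rw [θ, norm_add_mul_I, hp.1, Real.sqrt_one]

theorem eq_of_θ {p q : E} (hp : p ∈ M) (hq : q ∈ M) (h : θ p = θ q) : p = q := by
  refine ext_M hp hq ?_ ?_
  · simpa [θ] using congrArg re h
  · simpa [θ] using congrArg im h

theorem cir_arg {p : E} (hp : p ∈ M) : cir (arg (θ p)) = p := by
  refine eq_of_θ (cir_mem _) hp ?_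
  have := norm_mul_exp_arg_mul_I (θ p)
  rwa [norm_θ hp, ofReal_one, one_mul, ← θ_cir] at this

theorem cir_add (t : ℝ) : cir (t + 2 * Real.pi) = cir t := by
  simp [cir]

theorem cir_eq {s t : ℝ} (h : cir s = cir t) : ∃ k : ℤ, s = t + k * (2 * Real.pi) := by
  have h1 := congrArg θ h
  rw [θ_cir, θ_cir] at h1
  obtain ⟨k, hk⟩ := exp_eq_exp_iff_exists_int.1 h1
  refine ⟨k, ?_⟩
  simpa using congrArg im hk

theorem isCompact_M : IsCompact M := by
  have : M = cir '' Icc (-Real.pi) Real.pi := by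
    ext p
    constructor
    · intro hp
      exact ⟨_, ⟨(neg_pi_lt_arg _).le, arg_le_pi _⟩, cir_arg hp⟩
    · rintro ⟨t, -, rfl⟩
      exact cir_mem t
  rw [this]
  exact isCompact_Icc.image continuous_cir

theorem descend (φ : ℝ → ℂ) (hφ : Continuous φ) (hp : ∀ t, φ (t + 2 * Real.pi) = φ t) :
    ∃ Φ : M → ℂ, Continuous Φ ∧ ∀ t, Φ ⟨cir t, cir_mem t⟩ = φ t := by
  have key : ∀ t, φ (arg (θ (cir t))) = φ t := fun t => by
    obtain ⟨k, hk⟩ := cir_eq (cir_arg (cir_mem t))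
    rw [hk]
    exact Function.Periodic.int_mul (f := φ) hp k t
  refine ⟨fun p => φ (arg (θ p)), ?_, key⟩
  let q : Icc (-Real.pi) Real.pi → M := fun t => ⟨cir t, cir_mem t⟩
  have hq : Continuous q := (continuous_cir.comp continuous_subtype_val).subtype_mk _
  have hs : Function.Surjective q := fun p =>
    ⟨⟨_, (neg_pi_lt_arg _).le, arg_le_pi _⟩, Subtype.ext (cir_arg p.2)⟩
  refine (hq.isClosedMap.isQuotientMap hq hs).continuous_iff.2 ?_
  have : (fun p : M => φ (arg (θ p))) ∘ q = fun t => φ t.1 := funext fun t => key t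
  rw [this]
  fun_prop

/-- Two nonvanishing functions on the circle are dependent modulo exponentials. -/
theorem dep_M (F G : M → ℂ) (hF : Continuous F) (hG : Continuous G) (hF0 : ∀ p, F p ≠ 0)
    (hG0 : ∀ p, G p ≠ 0) :
    ∃ m n : ℤ, (m ≠ 0 ∨ n ≠ 0) ∧ HasLog fun p => F p ^ m * G p ^ n := by
  have hc : Continuous fun t => (⟨cir t, cir_mem t⟩ : M) := continuous_cir.subtype_mk _
  have hp : ∀ t, (⟨cir (t + 2 * Real.pi), cir_mem _⟩ : M) = ⟨cir t, cir_mem t⟩ :=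
    fun t => Subtype.ext (cir_add t)
  obtain ⟨φ, a, h1, h2, h3⟩ := exists_degree _ (hF.comp hc) (fun _ => hF0 _)
    fun t => congrArg F (hp t)
  obtain ⟨ψ, b, h4, h5, h6⟩ := exists_degree _ (hG.comp hc) (fun _ => hG0 _)
    fun t => congrArg G (hp t)
  have key : ∀ m n : ℤ, m * a + n * b = 0 → HasLog fun p => F p ^ m * G p ^ n := by
    intro m n h
    have h' : (m : ℂ) * a + n * b = 0 := by exact_mod_cast h
    obtain ⟨Φ, hΦ, e⟩ := descend (fun t => m * φ t + n * ψ t) (by fun_prop) fun t => by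
      rw [h3, h6]
      linear_combination (2 * Real.pi * I) * h'
    refine ⟨Φ, hΦ, fun p => ?_⟩
    have : p = ⟨cir _, cir_mem _⟩ := Subtype.ext (cir_arg p.2).symm
    rw [this, e, exp_add, exp_int_mul, exp_int_mul, h2, h5]
    rfl
  by_cases ha : a = 0
  · exact ⟨1, 0, Or.inl one_ne_zero, key _ _ (by simp [ha])⟩
  · exact ⟨b, -a, Or.inr (neg_ne_zero.2 ha), key _ _ (by ring)⟩

/-- The same for every space homotopy equivalent to the circle. -/
theorem dep_of_equiv {X : Set E} (e : ContinuousMap.HomotopyEquiv X M) (F G : E → ℂ)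
    (hF : ContinuousOn F X) (hG : ContinuousOn G X) (hF0 : ∀ p ∈ X, F p ≠ 0)
    (hG0 : ∀ p ∈ X, G p ≠ 0) : ∃ m n : ℤ, (m ≠ 0 ∨ n ≠ 0) ∧ ∃ Φ : E → ℂ, ContinuousOn Φ X ∧
      ∀ x ∈ X, exp (Φ x) = F x ^ m * G x ^ n := by
  classical
  have hF' : Continuous fun x : X => F x := hF.comp_continuous continuous_subtype_val fun x => x.2
  have hG' : Continuous fun x : X => G x := hG.comp_continuous continuous_subtype_val fun x => x.2
  obtain ⟨m, n, hmn, Ψ, hΨ, eΨ⟩ := dep_M (fun p => F (e.invFun p)) (fun p => G (e.invFun p))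
    (hF'.comp e.invFun.continuous) (hG'.comp e.invFun.continuous)
    (fun p => hF0 _ (e.invFun p).2) fun p => hG0 _ (e.invFun p).2
  obtain ⟨H⟩ := e.left_inv
  obtain ⟨Φ, hΦ, eΦ⟩ := HasLog.of_homotopy (fun p => F (H p) ^ m * G (H p) ^ n)
    (((hF'.comp H.continuous).zpow₀ m fun p => Or.inl (hF0 _ (H p).2)).mul
      ((hG'.comp H.continuous).zpow₀ n fun p => Or.inl (hG0 _ (H p).2)))
    (fun p => mul_ne_zero (zpow_ne_zero _ (hF0 _ (H p).2)) (zpow_ne_zero _ (hG0 _ (H p).2)))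
    ⟨fun x => Ψ (e.toFun x), hΨ.comp e.toFun.continuous, fun x => by
      rw [eΨ]
      simp only [H.apply_zero]
      rfl⟩
  refine ⟨m, n, hmn, fun z => if h : z ∈ X then Φ ⟨z, h⟩ else 0, ?_, fun z hz => ?_⟩
  · rw [continuousOn_iff_continuous_domRestrict]
    have : (X.domRestrict fun z => if h : z ∈ X then Φ ⟨z, h⟩ else 0) = Φ := by
      funext x
      exact dif_pos x.2
    rwa [this]
  · simp only [hz, dif_pos]
    rw [eΦ]
    simp only [H.apply_one]
    rfl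

end Pool.Agent.Work.MP_320b68_gt.Circ
end

-- merged part: Pool.Agent.Work.MP_320b68_gt.CircAdm
section
/-!
The round circle satisfies the standing assumptions.
-/

namespace Pool.Agent.Work.MP_320b68_gt.Circ

open scoped ENNReal Topology NNReal
open Set

universe u

theorem norm_sub_sq (x y : E) : ‖x - y‖ ^ 2 = (x 0 - y 0) ^ 2 + (x 1 - y 1) ^ 2 + (x 2 - y 2) ^ 2
    + (x 3 - y 3) ^ 2 + (x 4 - y 4) ^ 2 + (x 5 - y 5) ^ 2 + (x 6 - y 6) ^ 2 + (x 7 - y 7) ^ 2 := by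
  rw [EuclideanSpace.real_norm_sq_eq, Fin.sum_univ_eight]
  rfl

theorem norm_cir (s t : ℝ) : ‖cir s - cir t‖ = 2 * |Real.sin ((s - t) / 2)| := by
  refine (sq_eq_sq₀ (norm_nonneg _) (by positivity)).1 ?_
  rw [norm_sub_sq, mul_pow, sq_abs, Real.sin_sq_eq_half_sub,
    show 2 * ((s - t) / 2) = s - t by ring, Real.cos_sub]
  simp only [cir]
  simp
  linarith only [Real.cos_sq_add_sin_sq s, Real.cos_sq_add_sin_sq t]

theorem norm_cir_le (s t : ℝ) : ‖cir s - cir t‖ ≤ |s - t| := by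
  rw [norm_cir]
  have := Real.abs_sin_le_abs (x := (s - t) / 2)
  rw [abs_div, abs_two] at this
  linarith only [this]

theorem lipschitz_cir : LipschitzWith 1 cir :=
  LipschitzWith.of_dist_le_mul fun s t => by
    rw [dist_eq_norm, Real.dist_eq, NNReal.coe_one, one_mul]
    exact norm_cir_le s t

theorem var_ge {a b : ℝ} (h : a ≤ b) : ENNReal.ofReal (b - a) ≤ eVariationOn cir (Icc a b) := by
  have hL : 0 ≤ b - a := sub_nonneg.2 h
  have h1 : Filter.Tendsto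
      (fun n : ℕ => ENNReal.ofReal (b - a - (b - a) ^ 3 / 24 * (1 / ((n : ℝ) + 1)) ^ 2))
      Filter.atTop (𝓝 (ENNReal.ofReal (b - a - (b - a) ^ 3 / 24 * 0 ^ 2))) :=
    ENNReal.tendsto_ofReal (tendsto_const_nhds.sub (tendsto_const_nhds.mul
      (tendsto_one_div_add_atTop_nhds_zero_nat.pow 2)))
  rw [zero_pow two_ne_zero, mul_zero, sub_zero] at h1
  refine le_of_tendsto' h1 fun n => ?_
  have hn : (0 : ℝ) < n + 1 := by positivity
  set d := (b - a) / (n + 1) with hd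
  have hd0 : 0 ≤ d := div_nonneg hL hn.le
  have hd1 : d * (n + 1) = b - a := div_mul_cancel₀ _ hn.ne'
  refine le_trans ?_ (eVariationOn.sum_le_of_monotoneOn_Iic (n := n + 1)
    (u := fun i : ℕ => a + i * d) (fun i _ j _ hij => ?_) fun i hi => ⟨?_, ?_⟩)
  · have h2 : ∀ i ∈ Finset.range (n + 1), ENNReal.ofReal (d - d ^ 3 / 24) ≤
        edist (cir (a + ((i + 1 : ℕ) : ℝ) * d)) (cir (a + i * d)) := by
      intro i _
      rw [edist_dist, dist_eq_norm, norm_cir]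
      refine ENNReal.ofReal_le_ofReal ?_
      have h3 : (a + ((i + 1 : ℕ) : ℝ) * d - (a + i * d)) / 2 = d / 2 := by
        push_cast
        ring
      have h4 := Real.sin_ge_sub_cube (x := d / 2) (by positivity)
      have h5 := le_abs_self (Real.sin (d / 2))
      rw [h3]
      linarith only [h4, h5]
    refine le_trans ?_ (Finset.sum_le_sum h2)
    rw [Finset.sum_const, Finset.card_range, nsmul_eq_mul, ← ENNReal.ofReal_natCast,
      ← ENNReal.ofReal_mul (by positivity)]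
    refine le_of_eq (congrArg _ ?_)
    rw [← hd1]
    push_cast
    field_simp
  · have : (i : ℝ) ≤ j := by exact_mod_cast hij
    simp only
    (refine le_of_not_gt fun h_nl => ?_; linarith only [h_nl, hd1, h, this, mul_nonneg_of_nonpos_of_nonpos (Mathlib.Tactic.Linarith.sub_nonpos_of_le (Mathlib.Tactic.Linarith.natCast_nonneg ℝ n)) (le_of_lt (Mathlib.Tactic.Linarith.sub_neg_of_lt h_nl)), Mathlib.Tactic.Linarith.mul_zero_eq (Mathlib.Tactic.Linarith.sub_nonpos_of_le (Mathlib.Tactic.Linarith.natCast_nonneg ℝ i)) (sub_eq_zero_of_eq hd1), Mathlib.Tactic.Linarith.mul_zero_eq (Mathlib.Tactic.Linarith.sub_nonpos_of_le (Mathlib.Tactic.Linarith.natCast_nonneg ℝ j)) (sub_eq_zero_of_eq hd1), mul_nonneg_of_nonpos_of_nonpos (Mathlib.Tactic.Linarith.sub_nonpos_of_le h) (Mathlib.Tactic.Linarith.sub_nonpos_of_le this)])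
  · have : (0 : ℝ) ≤ i * d := by positivity
    linarith only [this]
  · have : (i : ℝ) ≤ n + 1 := by exact_mod_cast hi
    (refine le_of_not_gt fun h_nl => ?_; linarith only [h_nl, hd1, h, this, mul_nonneg_of_nonpos_of_nonpos (Mathlib.Tactic.Linarith.sub_nonpos_of_le (Mathlib.Tactic.Linarith.natCast_nonneg ℝ n)) (le_of_lt (Mathlib.Tactic.Linarith.sub_neg_of_lt h_nl)), Mathlib.Tactic.Linarith.mul_zero_eq (Mathlib.Tactic.Linarith.sub_nonpos_of_le (Mathlib.Tactic.Linarith.natCast_nonneg ℝ i)) (sub_eq_zero_of_eq hd1), mul_nonneg_of_nonpos_of_nonpos (Mathlib.Tactic.Linarith.sub_nonpos_of_le h) (Mathlib.Tactic.Linarith.sub_nonpos_of_le this)])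

theorem lift_ge {ω : unitInterval → E} {x : unitInterval → ℝ} (hx : Continuous x)
    (hω : ∀ u, ω u = cir (x u)) (h : x 0 ≤ x 1) :
    ENNReal.ofReal (x 1 - x 0) ≤ eVariationOn ω univ := by
  let τ : ℝ → unitInterval := fun y => sInf {u | x u = y}
  have hne : ∀ y ∈ Icc (x 0) (x 1), ∀ v : unitInterval, y ≤ x v → ∃ u ≤ v, x u = y := by
    intro y hy v hv
    obtain ⟨u, hu, hu'⟩ := intermediate_value_Icc (a := (0 : unitInterval)) (b := v) (f := x)
      unitInterval.nonneg' hx.continuousOn ⟨hy.1, hv⟩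
    exact ⟨u, hu.2, hu'⟩
  have hτ : ∀ y ∈ Icc (x 0) (x 1), x (τ y) = y := by
    intro y hy
    obtain ⟨u, -, hu⟩ := hne y hy 1 hy.2
    exact (isClosed_eq hx continuous_const).sInf_mem ⟨u, hu⟩
  have hmono : MonotoneOn τ (Icc (x 0) (x 1)) := by
    intro y hy y' hy' h
    obtain ⟨u, hu, hu'⟩ := hne y hy (τ y') (by rw [hτ y' hy']; exact h)
    exact (sInf_le (s := {u | x u = y}) hu').trans hu
  have : eVariationOn cir (Icc (x 0) (x 1)) = eVariationOn (ω ∘ τ) (Icc (x 0) (x 1)) := by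
    refine eVariationOn.eq_of_eqOn fun y hy => ?_
    rw [Function.comp_apply, hω, hτ y hy]
  refine (var_ge h).trans ?_
  rw [this]
  exact eVariationOn.comp_le_of_monotoneOn ω τ hmono (mapsTo_univ _ _)

theorem lift_abs {ω : unitInterval → E} {x : unitInterval → ℝ} (hx : Continuous x)
    (hω : ∀ u, ω u = cir (x u)) : ENNReal.ofReal |x 1 - x 0| ≤ eVariationOn ω univ := by
  rcases le_total (x 0) (x 1) with h | h
  · rw [abs_of_nonneg (sub_nonneg.2 h)]
    exact lift_ge hx hω h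
  · have := lift_ge (ω := ω ∘ unitInterval.symm) (x := x ∘ unitInterval.symm)
      (hx.comp unitInterval.continuous_symm) (fun u => hω _) (by simpa using h)
    rw [abs_sub_comm, abs_of_nonneg (sub_nonneg.2 h)]
    refine le_trans (by simp) (this.trans ?_)
    exact eVariationOn.comp_le_of_antitoneOn ω (s := univ) (t := univ) unitInterval.symm
      (fun x _ y _ h => unitInterval.symm_le_symm.2 h) (mapsTo_univ _ _)

theorem θ_ne {p : E} (hp : p ∈ M) : θ p ≠ 0 := by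
  rw [← norm_ne_zero_iff, norm_θ hp]
  exact one_ne_zero

theorem dist_le {s t : ℝ} (h : s ≤ t) :
    intrinsicDist M (cir s) (cir t) ≤ ENNReal.ofReal (t - s) := by
  let φ : unitInterval → ℝ := fun u => s + u * (t - s)
  have hφ : Monotone φ := fun x y h => by
    have : (x : ℝ) ≤ y := h
    simp only [φ]
    nlinarith
  have hm : MapsTo φ univ (Icc s t) := fun u _ => by
    have h1 := u.2.1
    have h2 := u.2.2
    simp only [φ]
    constructor <;> linarith only [h, h1, h2, mul_nonneg_of_nonpos_of_nonpos (Mathlib.Tactic.Linarith.sub_nonpos_of_le h) (Mathlib.Tactic.Linarith.sub_nonpos_of_le h1), mul_nonneg_of_nonpos_of_nonpos (Mathlib.Tactic.Linarith.sub_nonpos_of_le h) (Mathlib.Tactic.Linarith.sub_nonpos_of_le h2)]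
  let ω : Path (cir s) (cir t) :=
    { toFun := cir ∘ φ
      continuous_toFun := continuous_cir.comp (by fun_prop)
      source' := by simp [φ]
      target' := by simp [φ] }
  refine iInf₂_le_of_le ω (fun u => cir_mem _) ?_
  refine (eVariationOn.comp_le_of_monotoneOn cir φ (hφ.monotoneOn _) hm).trans ?_
  simpa using var_le (N := 7) lipschitz_cir s t

theorem dist_cir {s t : ℝ} (h : |s - t| ≤ Real.pi) :
    intrinsicDist M (cir s) (cir t) = ENNReal.ofReal |s - t| := by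
  apply le_antisymm
  · rcases le_total s t with h | h
    · rw [abs_sub_comm, abs_of_nonneg (sub_nonneg.2 h)]
      exact dist_le h
    · rw [intrinsicDist_comm, abs_of_nonneg (sub_nonneg.2 h)]
      exact dist_le h
  · refine le_iInf₂ fun ω hω => ?_
    obtain ⟨Γ, h1, -⟩ := Complex.isCoveringMap_exp.exists_path_lifts
      (⟨fun u => ⟨θ (ω u), θ_ne (hω u)⟩,
        (continuous_θ.comp ω.continuous).subtype_mk _⟩ : C(unitInterval, {z : ℂ // z ≠ 0}))
      (s * Complex.I) (Subtype.ext (by simp [θ_cir]))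
    have h2 : ∀ u, ω u = cir (Γ u).im := fun u => by
      have h3 : Complex.exp (Γ u) = θ (ω u) := congrArg Subtype.val (congrFun h1 u)
      refine eq_of_θ (hω u) (cir_mem _) ?_
      have h4 := norm_θ (hω u)
      rw [← h3, Complex.norm_exp] at h4
      rw [θ_cir, ← h3, Complex.exp_eq_exp_re_mul_sin_add_cos, ← Complex.ofReal_exp, h4,
        Complex.exp_mul_I, Complex.ofReal_one, one_mul]
    refine le_trans (ENNReal.ofReal_le_ofReal ?_) (lift_abs (x := fun u => (Γ u).im)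
      (by fun_prop) h2)
    obtain ⟨k, hk⟩ := cir_eq ((h2 0).symm.trans ω.source)
    obtain ⟨l, hl⟩ := cir_eq ((h2 1).symm.trans ω.target)
    rw [hk, hl]
    have hπ := Real.pi_pos
    have h5 := abs_le.1 h
    rcases lt_trichotomy (l - k) 0 with h6 | h6 | h6
    · have : (l : ℝ) - k ≤ -1 := by exact_mod_cast Int.le_sub_one_of_lt h6
      exact h.trans (le_abs.2 (Or.inr (by linarith only [h5, hπ, this, mul_nonneg_of_nonpos_of_nonpos (le_of_lt (Mathlib.Tactic.Linarith.sub_neg_of_lt hπ)) (Mathlib.Tactic.Linarith.sub_nonpos_of_le this)])))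
    · rw [sub_eq_zero.1 h6, abs_sub_comm]
      exact le_of_eq (congrArg _ (by ring))
    · have : (1 : ℝ) ≤ l - k := by exact_mod_cast h6
      exact h.trans (le_abs.2 (Or.inl (by linarith only [h5, hπ, this, mul_nonneg_of_nonpos_of_nonpos (le_of_lt (Mathlib.Tactic.Linarith.sub_neg_of_lt hπ)) (Mathlib.Tactic.Linarith.sub_nonpos_of_le this)])))

theorem exists_angles {p q : E} (hp : p ∈ M) (hq : q ∈ M) :
    ∃ s t, p = cir s ∧ q = cir t ∧ |s - t| ≤ Real.pi := by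
  refine ⟨(θ p).arg, toIocMod Real.two_pi_pos ((θ p).arg - Real.pi) (θ q).arg,
    (cir_arg hp).symm, ?_, ?_⟩
  · rw [toIocMod, zsmul_eq_mul, ← cir_arg hq, cir_arg hq]
    exact (cir_arg hq).symm.trans
      ((Function.Periodic.int_mul (f := cir) cir_add _).sub_eq _).symm
  · have := toIocMod_mem_Ioc Real.two_pi_pos ((θ p).arg - Real.pi) (θ q).arg
    exact abs_le.2 ⟨by linarith [this.2], by linarith [this.1]⟩

theorem dist_bounds {p q : E} (hp : p ∈ M) (hq : q ∈ M) :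
    ENNReal.ofReal ‖p - q‖ ≤ intrinsicDist M p q ∧
      intrinsicDist M p q ≤ ENNReal.ofReal (2 * ‖p - q‖) := by
  obtain ⟨s, t, rfl, rfl, h⟩ := exists_angles hp hq
  rw [dist_cir h]
  refine ⟨ENNReal.ofReal_le_ofReal (norm_cir_le s t), ENNReal.ofReal_le_ofReal ?_⟩
  have h1 := Real.mul_abs_le_abs_sin (x := (s - t) / 2) (by rw [abs_div, abs_two]; linarith only [h])
  rw [abs_div, abs_two] at h1
  have h2 : 1 / 2 ≤ 2 / Real.pi := by
    rw [div_le_div_iff₀ two_pos Real.pi_pos]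
    linarith [Real.pi_le_four]
  rw [norm_cir]
  linarith only [h1, h2, abs_nonneg (s - t), mul_nonneg_of_nonpos_of_nonpos (Mathlib.Tactic.Linarith.sub_nonpos_of_le h2) (Mathlib.Tactic.Linarith.sub_nonpos_of_le (abs_nonneg (s - t)))]

/-- The radial retraction. -/
noncomputable def rad (x : E) : E := !₂[x 0 / ‖θ x‖, x 1 / ‖θ x‖, 0, 0, 0, 0, 0, 0]

theorem norm_θ_sq (x : E) : ‖θ x‖ ^ 2 = x 0 ^ 2 + x 1 ^ 2 := by
  rw [θ, Complex.norm_add_mul_I, Real.sq_sqrt (by positivity)]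

theorem rad_mem {x : E} (hx : θ x ≠ 0) : rad x ∈ M := by
  refine ⟨?_, fun j hj => ?_⟩
  · have := norm_ne_zero_iff.2 hx
    change (x 0 / ‖θ x‖) ^ 2 + (x 1 / ‖θ x‖) ^ 2 = 1
    rw [div_pow, div_pow, ← add_div, ← norm_θ_sq, div_self (pow_ne_zero _ this)]
  · fin_cases j <;> first | rfl | simp at hj

theorem rad_eq {p : E} (hp : p ∈ M) : rad p = p := by
  refine ext_M (rad_mem (θ_ne hp)) hp ?_ ?_
  · change p 0 / ‖θ p‖ = p 0
    rw [norm_θ hp, div_one]
  · change p 1 / ‖θ p‖ = p 1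
    rw [norm_θ hp, div_one]

theorem continuousOn_rad : ContinuousOn rad {x | θ x ≠ 0} := by
  have h : ∀ j : Fin 8, ContinuousOn (fun x : E => x j / ‖θ x‖) {x | θ x ≠ 0} := fun j =>
    ContinuousOn.div (by fun_prop) continuous_θ.norm.continuousOn fun x hx =>
      norm_ne_zero_iff.2 hx
  refine (PiLp.continuous_toLp 2 _).comp_continuousOn (continuousOn_pi.2 fun j => ?_)
  fin_cases j
  · exact h 0
  · exact h 1
  all_goals exact continuousOn_const

theorem rad_le {x p : E} (hx : θ x ≠ 0) (hp : p ∈ M) : ‖rad x - x‖ ≤ ‖p - x‖ := by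
  refine (sq_le_sq₀ (norm_nonneg _) (norm_nonneg _)).1 ?_
  have h0 := norm_pos_iff.2 hx
  have h1 := norm_θ_sq x
  have hm := rad_mem hx
  rw [norm_sub_sq, norm_sub_sq]
  simp only [hp.2 2 (by decide), hp.2 3 (by decide), hp.2 4 (by decide), hp.2 5 (by decide),
    hp.2 6 (by decide), hp.2 7 (by decide), hm.2 2 (by decide), hm.2 3 (by decide),
    hm.2 4 (by decide), hm.2 5 (by decide), hm.2 6 (by decide), hm.2 7 (by decide)]
  have h2 : rad x 0 * x 0 + rad x 1 * x 1 = ‖θ x‖ := by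
    change x 0 / ‖θ x‖ * x 0 + x 1 / ‖θ x‖ * x 1 = ‖θ x‖
    field_simp
    linarith
  have h3 : p 0 * x 0 + p 1 * x 1 ≤ ‖θ x‖ := by
    refine le_of_sq_le_sq ?_ h0.le
    linarith only [h1, hp, hp.1, sq_nonneg (p 0 * x 1 - p 1 * x 0), sq_nonneg (p.ofLp (0 : Fin (8 : ℕ)) * x.ofLp (1 : Fin (8 : ℕ)) - p.ofLp (1 : Fin (8 : ℕ)) * x.ofLp (0 : Fin (8 : ℕ))), Mathlib.Tactic.Linarith.mul_zero_eq (Mathlib.Tactic.Linarith.sub_nonpos_of_le (sq_nonneg (x.ofLp (1 : Fin (8 : ℕ))))) (sub_eq_zero_of_eq hp.left), Mathlib.Tactic.Linarith.mul_zero_eq (Mathlib.Tactic.Linarith.sub_nonpos_of_le (sq_nonneg (x.ofLp (0 : Fin (8 : ℕ))))) (sub_eq_zero_of_eq hp.left)]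
  linarith only [h2, h3, hm, hp, hm.1, hp.1]

theorem norm_θ_sub (x y : E) : ‖θ x - θ y‖ ≤ ‖x - y‖ := by
  have : θ x - θ y = θ (x - y) := by
    simp only [θ, PiLp.sub_apply]
    push_cast
    ring
  rw [this]
  refine (sq_le_sq₀ (norm_nonneg _) (norm_nonneg _)).1 ?_
  rw [norm_θ_sq, norm_sub_sq]
  simp only [PiLp.sub_apply]
  linarith only [sq_nonneg (x 2 - y 2), sq_nonneg (x 3 - y 3), sq_nonneg (x 4 - y 4),
    sq_nonneg (x 5 - y 5), sq_nonneg (x 6 - y 6), sq_nonneg (x 7 - y 7)]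

theorem θ_ne_of_near {x p : E} (hp : 1 ≤ ‖θ p‖) (h : ‖x - p‖ < 1) : θ x ≠ 0 := by
  intro h0
  have := norm_θ_sub x p
  rw [h0, zero_sub, norm_neg] at this
  linarith

theorem admissible_M : Admissible.{u} M where
  compact := isCompact_M
  connected := by
    have : M = range cir := by
      ext p
      exact ⟨fun hp => ⟨_, cir_arg hp⟩, fun ⟨t, ht⟩ => ht ▸ cir_mem t⟩
    rw [this]
    exact isConnected_range continuous_cir
  geodesic := by
    intro p hp q hq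
    obtain ⟨s, t, rfl, rfl, h⟩ := exists_angles hp hq
    let e : ℝ := if s ≤ t then 1 else -1
    have he : |e| = 1 := by
      simp only [e]; split_ifs <;> simp
    have hend : s + e * |s - t| = t := by
      simp only [e]
      split_ifs with h
      · rw [abs_of_nonpos (by linarith)]; ring
      · rw [abs_of_nonneg (by linarith)]; ring
    refine ⟨|s - t|, fun u => cir (s + e * u), abs_nonneg _, dist_cir h, by simp,
      by simp only [hend], fun _ _ => cir_mem _, fun u hu v hv => ?_⟩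
    have : |s + e * u - (s + e * v)| = |u - v| := by
      rw [add_sub_add_left_eq_sub, ← mul_sub, abs_mul, he, one_mul]
    rw [dist_cir, this]
    rw [this]
    exact abs_le.2 ⟨by linarith [hu.1, hv.2], by linarith [hu.2, hv.1]⟩
  m1 := by
    refine ⟨1, one_pos, fun X _ f g h => ?_⟩
    have h1 : ∀ z : unitInterval × X,
        θ ((f z.2 : E) + (z.1 : ℝ) • ((g z.2 : E) - f z.2)) ≠ 0 := fun z => by
      refine θ_ne_of_near (norm_θ (f z.2).2).ge ?_
      have h2 := (ENNReal.ofReal_lt_ofReal_iff one_pos).1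
        ((dist_bounds (f z.2).2 (g z.2).2).1.trans_lt (h z.2))
      rw [add_sub_cancel_left, norm_smul, norm_sub_rev, Real.norm_of_nonneg z.1.2.1]
      nlinarith only [h2, z.1.2.1, z.1.2.2, norm_nonneg ((f z.2 : E) - g z.2)]
    refine ⟨⟨⟨fun z => ⟨_, rad_mem (h1 z)⟩, ?_⟩, fun x => Subtype.ext ?_, fun x => Subtype.ext ?_⟩⟩
    · exact (continuousOn_rad.comp_continuous (by fun_prop) h1).subtype_mk _
    · simpa using rad_eq (f x).2
    · simpa using rad_eq (g x).2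
  m2 := ⟨1, 2, one_pos, one_lt_two, fun _ hp _ hq _ => dist_bounds hp hq⟩
  m3 := by
    refine ⟨{x | θ x ≠ 0}, rad, fun r => 2 * r, ?_, continuousOn_rad, fun x hx => rad_mem hx,
      fun p hp => rad_eq hp, fun r hr hU => ⟨by positivity, fun x hx => ?_⟩, ?_⟩
    · exact (isOpen_ne_fun continuous_θ continuous_const).mem_nhdsSet.2 fun p hp => θ_ne hp
    · obtain ⟨p, hp, h⟩ := isCompact_M.exists_infDist_eq_dist ⟨_, cir_mem 0⟩ x
      have := rad_le (hU hx) hp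
      rw [h, dist_eq_norm, norm_sub_rev] at hx
      linarith
    · have : Filter.Tendsto (fun r : ℝ => 2 * r) (𝓝 0) (𝓝 (2 * 0)) :=
        (continuous_const.mul continuous_id).tendsto 0
      rw [mul_zero] at this
      exact this.mono_left nhdsWithin_le_nhds

end Pool.Agent.Work.MP_320b68_gt.Circ
end

-- merged part: Pool.Agent.Work.MP_320b68_gt.CircGad
section
/-!
Seven points near the circle: two cliques whose hulls meet in one point.
-/

namespace Pool.Agent.Work.MP_320b68_gt.Circ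

open scoped ENNReal Topology NNReal
open Set

/-- The seven points. -/
noncomputable def v (ε r c s : ℝ) : Fin 7 → E :=
  ![!₂[1, -(r * s), 3 * ε, 0, -(8 * r * ε), 0, ε, r * ε],
    !₂[1, -(r * s), -(3 * ε), 0, 0, 0, 0, 0],
    !₂[c, s, 0, 0, 4 * ε, 0, 0, 0],
    !₂[1, r * s, 0, 4 * ε, 0, 0, ε, 0],
    !₂[1, r * s, 0, -(4 * ε), 0, 0, 0, 0],
    !₂[c, -s, -(3 * ε), 0, 0, ε, 0, ε],
    !₂[c, -s, 3 * ε, 0, 0, -ε, 0, 0]]

/-- The constraints on the parameters. -/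
structure Par (β κ ε r c s : ℝ) : Prop where
  ε0 : 0 < ε
  β1 : β < 1
  εβ : 10 * ε ≤ β
  r0 : 100 * r = ε ^ 2
  c0 : 2 - 2 * c = β ^ 2 - 30 * ε ^ 2
  cs : c ^ 2 + s ^ 2 = 1
  s0 : 0 < s
  κ0 : 0 < κ
  κ1 : 30 * ε ^ 2 ≤ κ * β

variable {β κ ε r c s : ℝ}

theorem Par.facts (h : Par β κ ε r c s) : 0 < β ∧ 0 < r ∧ 0 < ε ^ 2 ∧ 100 * ε ^ 2 ≤ β ^ 2 ∧
    (0 ≤ r * s ^ 2 ∧ 100 * (r * s ^ 2) ≤ ε ^ 2) ∧
    (0 ≤ r ^ 2 * s ^ 2 ∧ 100 * (r ^ 2 * s ^ 2) ≤ ε ^ 2) ∧
    (0 ≤ r * ε ^ 2 ∧ 100 * (r * ε ^ 2) ≤ ε ^ 2) ∧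
    (0 ≤ r ^ 2 * ε ^ 2 ∧ 100 * (r ^ 2 * ε ^ 2) ≤ ε ^ 2) ∧ 0 ≤ c ∧ β ≤ 2 * s := by
  obtain ⟨h1, h2, h3, h4, h5, h6, h7, -, -⟩ := h
  have hβ : 0 < β := by linarith
  have hε : ε ^ 2 ≤ 1 := pow_le_one₀ h1.le (by linarith)
  have hr : 0 < r := by linarith [pow_pos h1 2]
  have hr1 : r ≤ 1 := by linarith
  have hs : s ^ 2 ≤ 1 := by linarith [sq_nonneg c]
  have h8 : 100 * ε ^ 2 ≤ β ^ 2 := by
    linarith only [h1, h3, pow_le_pow_left₀ (by linarith : 0 ≤ 10 * ε) h3 2]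
  have h9 : β ^ 2 ≤ 1 := pow_le_one₀ hβ.le h2.le
  have a1 : r * s ^ 2 ≤ r := mul_le_of_le_one_right hr.le hs
  have a2 : r * ε ^ 2 ≤ r := mul_le_of_le_one_right hr.le hε
  have a3 : r * (r * s ^ 2) ≤ r * s ^ 2 := mul_le_of_le_one_left (by positivity) hr1
  have a4 : r * (r * ε ^ 2) ≤ r * ε ^ 2 := mul_le_of_le_one_left (by positivity) hr1
  have hc : 1 / 2 ≤ c := by linarith only [h4, h5, hr, h9]
  have hc1 : 0 ≤ 1 - c := by linarith only [h4, h5, hr, h8]
  refine ⟨hβ, hr, by positivity, h8, ⟨by positivity, by linarith only [h4, a1]⟩, ⟨by positivity, by linarith only [h4, a1, a3]⟩,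
    ⟨by positivity, by linarith only [h4, a2]⟩, ⟨by positivity, by linarith only [h4, a2, a4]⟩, by linarith only [h4, h5, hr, h8, h9], ?_⟩
  refine le_of_sq_le_sq ?_ (by linarith only [h7])
  linarith only [h4, h5, h6, hr, h8, hc1, hc, mul_nonneg hc1 (sub_nonneg.2 hc), sq_nonneg β]

theorem lt_of_sq {x y : E} (hβ : 0 < β) (h : ‖x - y‖ ^ 2 < β ^ 2) : ‖x - y‖ < β :=
  lt_of_pow_lt_pow_left₀ 2 hβ.le h

theorem not_lt_of_sq {x y : E} (h : β ^ 2 ≤ ‖x - y‖ ^ 2) : ¬ ‖x - y‖ < β :=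
  fun h' => absurd h (not_le.2 (pow_lt_pow_left₀ h' (norm_nonneg _) two_ne_zero))

theorem Par.adj (h : Par β κ ε r c s) (i j : Fin 7)
    (hij : (i ≤ 2 ∧ j ≤ 2) ∨ (3 ≤ i ∧ 3 ≤ j) ∨ ((i = 1 ∨ i = 3) ∧ (j = 1 ∨ j = 3))) :
    ‖v ε r c s i - v ε r c s j‖ < β := by
  obtain ⟨hβ, -, h1, h2, ⟨h3, h4⟩, ⟨h5, h6⟩, ⟨h7, h8⟩, ⟨h9, h10⟩, -⟩ := h.facts
  have h11 := h.c0
  have h12 := h.cs
  refine lt_of_sq hβ ?_
  rw [norm_sub_sq]
  fin_cases i <;> fin_cases j <;> simp at hij <;> simp [v] <;> linarith only [h1, h2, h10, h4, h6, h8, h11, h12]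

theorem Par.nadj (h : Par β κ ε r c s) (i j : Fin 7)
    (hij : (i = 3 ∧ j = 2) ∨ (i = 4 ∧ j = 2) ∨ (i = 5 ∧ j = 0) ∨ (i = 6 ∧ j = 1)) :
    ¬ ‖v ε r c s i - v ε r c s j‖ < β := by
  obtain ⟨hβ, -, h1, h2, ⟨h3, h4⟩, ⟨h5, h6⟩, ⟨h7, h8⟩, ⟨h9, h10⟩, -⟩ := h.facts
  have h11 := h.c0
  have h12 := h.cs
  refine not_lt_of_sq ?_
  rw [norm_sub_sq]
  rcases hij with ⟨rfl, rfl⟩ | ⟨rfl, rfl⟩ | ⟨rfl, rfl⟩ | ⟨rfl, rfl⟩ <;> simp [v] <;> linarith only [h1, h4, h5, h11, h12, h8, h9]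

theorem Par.side (h : Par β κ ε r c s) {p : E} (hp : p ∈ M) (hκ : κ ≤ |p 1|) :
    (‖p - v ε r c s 2‖ < β → κ ≤ p 1) ∧ (‖p - v ε r c s 5‖ < β → κ ≤ -p 1) := by
  obtain ⟨hβ, -, h1, -, -, -, -, -, h2, h3⟩ := h.facts
  have h11 := h.c0
  have h12 := h.cs
  have h13 := h.κ1
  have h14 := h.κ0
  have h15 := h.s0
  have h4 := hp.1
  have h5 : p 0 ≤ 1 := by linarith only [h4, sq_nonneg (p 0 - 1), sq_nonneg (p 1)]
  have h6 : p 0 * c ≤ c := mul_le_of_le_one_left h2 h5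
  have h7 : κ * β ≤ 2 * (κ * s) := by linarith [mul_le_mul_of_nonneg_left h3 h14.le]
  constructor <;> intro hlt <;> by_contra hcon <;> refine not_lt_of_sq ?_ hlt <;>
    rw [norm_sub_sq]
  · have h8 : κ ≤ -p 1 := (le_abs.1 hκ).resolve_left hcon
    have h9 : κ * s ≤ -p 1 * s := mul_le_mul_of_nonneg_right h8 h15.le
    simp [v, hp.2]
    linarith only [h1, h11, h12, h13, h4, h6, h7, h9]
  · have h8 : κ ≤ p 1 := (le_abs.1 hκ).resolve_right hcon
    have h9 : κ * s ≤ p 1 * s := mul_le_mul_of_nonneg_right h8 h15.le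
    simp [v, hp.2]
    linarith only [h1, h11, h12, h13, h4, h6, h7, h9]

theorem Par.near (h : Par β κ ε r c s) (k : Fin 7) :
    1 ≤ ‖θ (v ε r c s k)‖ ∧ ∃ p ∈ M, ‖v ε r c s k - p‖ ≤ 5 * ε := by
  obtain ⟨hβ, -, h1, h2, ⟨h3, h4⟩, ⟨h5, h6⟩, ⟨h7, h8⟩, ⟨h9, h10⟩, -⟩ := h.facts
  have h12 := h.cs
  have h13 := h.ε0
  have hm : ∀ a b : ℝ, a ^ 2 + b ^ 2 = 1 → (!₂[a, b, 0, 0, 0, 0, 0, 0] : E) ∈ M :=
    fun a b hab => ⟨hab, fun j hj => by fin_cases j <;> first | rfl | simp at hj⟩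
  constructor
  · refine le_of_sq_le_sq ?_ (norm_nonneg _)
    rw [norm_θ_sq]
    fin_cases k <;> simp [v] <;> linarith only [h5, h12]
  · have h14 : ∀ (a b : ℝ) (hab : a ^ 2 + b ^ 2 = 1),
        ‖v ε r c s k - !₂[a, b, 0, 0, 0, 0, 0, 0]‖ ^ 2 ≤ (5 * ε) ^ 2 →
        ∃ p ∈ M, ‖v ε r c s k - p‖ ≤ 5 * ε :=
      fun a b hab h => ⟨_, hm a b hab, le_of_sq_le_sq h (by positivity)⟩
    fin_cases k
    · exact h14 1 0 (by simp) (by rw [norm_sub_sq]; simp [v]; linarith only [h1, h6, h10])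
    · exact h14 1 0 (by simp) (by rw [norm_sub_sq]; simp [v]; linarith)
    · exact h14 c s h12 (by rw [norm_sub_sq]; simp [v]; linarith)
    · exact h14 1 0 (by simp) (by rw [norm_sub_sq]; simp [v]; linarith)
    · exact h14 1 0 (by simp) (by rw [norm_sub_sq]; simp [v]; linarith only [h1, h6])
    · exact h14 c (-s) (by simpa using h12) (by rw [norm_sub_sq]; simp [v]; linarith)
    · exact h14 c (-s) (by simpa using h12) (by rw [norm_sub_sq]; simp [v]; linarith)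

/-- Points with prescribed weights on the seven points. -/
def Rep (κ ε r s e : ℝ) (Z : Fin 7 → Prop) : Set E :=
  {x | ∃ l : Fin 7 → ℝ, (∀ k, 0 ≤ l k) ∧ (∀ k, Z k → l k = 0) ∧
    l 0 + l 1 + l 2 + l 3 + l 4 + l 5 + l 6 ≤ 1 ∧ x 2 = ε * (3 * (l 0 - l 1 - l 5 + l 6)) ∧
    x 3 = ε * (4 * (l 3 - l 4)) ∧ x 4 = ε * (4 * l 2 - 8 * r * l 0) ∧ x 5 = ε * (l 5 - l 6) ∧
    x 6 = ε * (l 0 + l 3) ∧ x 7 = ε * (r * l 0 + l 5) ∧
    e ^ 2 * κ * (1 - (l 0 + l 1 + l 2 + l 3 + l 4 + l 5 + l 6)) ≤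
      e * (x 1 - s * (r * (l 3 + l 4 - l 0 - l 1) + l 2 - l 5 - l 6))}

theorem hull_subset_Rep {e : ℝ} {Z : Fin 7 → Prop} {σ : Set E}
    (hσ : ∀ p ∈ σ, (p ∈ M ∧ e ^ 2 * κ ≤ e * p 1) ∨ ∃ k, ¬ Z k ∧ p = v ε r c s k) :
    convexHull ℝ σ ⊆ Rep κ ε r s e Z := by
  refine convexHull_min (fun p hp => ?_) ?_
  · rcases hσ p hp with ⟨h1, h2⟩ | ⟨k, h1, rfl⟩
    · exact ⟨0, fun _ => le_rfl, fun _ _ => rfl, by simp, by simp [h1.2], by simp [h1.2],
        by simp [h1.2], by simp [h1.2], by simp [h1.2], by simp [h1.2], by simpa using h2⟩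
    · refine ⟨Pi.single k 1, fun j => by rw [Pi.single_apply]; split_ifs <;> simp,
        fun j hj => Pi.single_eq_of_ne (by rintro rfl; exact h1 hj) _, ?_⟩
      fin_cases k <;> simp [v] <;> ring_nf <;> simp
  · rintro x ⟨l, h1, h2, h3, h4, h5, h6, h7, h8, h9, h10⟩
      y ⟨l', g1, g2, g3, g4, g5, g6, g7, g8, g9, g10⟩ a b ha hb hab
    refine ⟨fun k => a * l k + b * l' k, fun k => add_nonneg (mul_nonneg ha (h1 k))
      (mul_nonneg hb (g1 k)), fun k hk => by simp [h2 k hk, g2 k hk], ?_⟩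
    simp only [PiLp.add_apply, PiLp.smul_apply, smul_eq_mul]
    refine ⟨by linarith only [hab, h3, ha, g3, hb, mul_le_mul_of_nonneg_left h3 ha, mul_le_mul_of_nonneg_left g3 hb],
      by linear_combination a * h4 + b * g4,
      by linear_combination a * h5 + b * g5, by linear_combination a * h6 + b * g6,
      by linear_combination a * h7 + b * g7, by linear_combination a * h8 + b * g8,
      by linear_combination a * h9 + b * g9, ?_⟩
    have k1 := mul_le_mul_of_nonneg_left h10 ha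
    have k2 := mul_le_mul_of_nonneg_left g10 hb
    have k3 : e ^ 2 * κ = (a + b) * (e ^ 2 * κ) := by rw [hab, one_mul]
    linarith only [k1, k2, k3]

/-- The function that measures the depth in the first clique. -/
noncomputable def dep (ε r : ℝ) (x : E) : ℝ :=
  ((2 + 2 * r) / ε) ^ 3 * (x 6 * (x 6 - x 2 / 3) * (x 6 + x 4 / (8 * r)))

theorem continuous_dep (ε r : ℝ) : Continuous (dep ε r) := by
  unfold dep
  fun_prop

theorem rep_diff (hε : 0 < ε) (hr : 0 < r) {e e' : ℝ} {Z : Fin 7 → Prop} {x : E}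
    (h : x ∈ Rep κ ε r s e fun k => 3 ≤ k) (h' : x ∈ Rep κ ε r s e' Z) :
    ∃ (l : Fin 7 → ℝ) (t : ℝ), (∀ k, Z k → l k = 0) ∧ l 3 = t ∧ l 4 = t ∧ l 5 = r * t ∧
      l 6 = r * t ∧ dep ε r x = (2 + 2 * r) ^ 3 * ((l 0 + t) * (l 1 + t) * (l 2 / (2 * r) + t)) ∧
      l 0 + l 1 + l 2 + (2 + 2 * r) * t ≤ 1 ∧
      e ^ 2 * κ * (1 - (l 0 + l 1 + l 2 + (2 + 2 * r) * t)) ≤
        e * (x 1 - s * (l 2 - r * (l 0 + l 1))) ∧
      e' ^ 2 * κ * (1 - (l 0 + l 1 + l 2 + (2 + 2 * r) * t)) ≤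
        e' * (x 1 - s * (l 2 - r * (l 0 + l 1))) := by
  obtain ⟨l, -, h2, h3, h4, h5, h6, h7, h8, h9, h10⟩ := h
  obtain ⟨l', -, g2, g3, g4, g5, g6, g7, g8, g9, g10⟩ := h'
  have z3 := h2 3 (by decide)
  have z4 := h2 4 (by decide)
  have z5 := h2 5 (by decide)
  have z6 := h2 6 (by decide)
  have k4 := mul_left_cancel₀ hε.ne' (h4.symm.trans g4)
  have k5 := mul_left_cancel₀ hε.ne' (h5.symm.trans g5)
  have k6 := mul_left_cancel₀ hε.ne' (h6.symm.trans g6)
  have k7 := mul_left_cancel₀ hε.ne' (h7.symm.trans g7)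
  have k8 := mul_left_cancel₀ hε.ne' (h8.symm.trans g8)
  have k9 := mul_left_cancel₀ hε.ne' (h9.symm.trans g9)
  have e0 : l 0 = l' 0 + l' 3 := by linarith only [z3, k8]
  have e4 : l' 4 = l' 3 := by linarith only [z3, z4, k5]
  have e5 : l' 5 = r * l' 3 := by rw [e0] at k9; linarith only [z5, k9]
  have e6 : l' 6 = r * l' 3 := by linarith only [z5, z6, k7, e5]
  have e1 : l 1 = l' 1 + l' 3 := by linarith only [z3, k4, k7, k8]
  have e2 : l 2 = l' 2 + 2 * r * l' 3 := by rw [e0] at k6; linarith only [k6]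
  simp only [z3, z4, z5, z6, e0, e1, e2] at h4 h6 h8 h10
  rw [e4, e5, e6] at g3 g10
  refine ⟨l', l' 3, g2, rfl, e4, e5, e6, ?_, by linarith only [g3], ?_, ?_⟩
  · rw [dep, h4, h6, h8]
    field_simp
    ring
  · convert h10 using 2 <;> ring
  · convert g10 using 2 <;> ring

theorem dep_one (hε : 0 < ε) (hr : 0 < r) (hκ : 0 < κ) {x : E}
    (h : x ∈ Rep κ ε r s 1 fun k => 3 ≤ k) (h' : x ∈ Rep κ ε r s (-1) fun k => k ≤ 2) :
    dep ε r x = 1 := by
  obtain ⟨l, t, h1, -, -, -, -, h2, h3, h4, h5⟩ := rep_diff hε hr h h'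
  rw [h1 0 (by decide), h1 1 (by decide), h1 2 (by decide)] at *
  have h6 : (2 + 2 * r) * t = 1 := by nlinarith
  rw [h2]
  linear_combination (((2 + 2 * r) * t) ^ 2 + (2 + 2 * r) * t + 1) * h6

theorem dep_zero (hε : 0 < ε) (hr : 0 < r) {x : E} {i j : Fin 7} (hi : i ≤ 2) (hj : 3 ≤ j)
    (h : x ∈ Rep κ ε r s 1 fun k => 3 ≤ k) (h' : x ∈ Rep κ ε r s 0 fun k => k = i ∨ k = j) :
    dep ε r x = 0 := by
  obtain ⟨l, t, h1, h3, h4, h5, h6, h2, -⟩ := rep_diff hε hr h h'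
  have hi0 := h1 i (Or.inl rfl)
  have hj0 := h1 j (Or.inr rfl)
  have ht : t = 0 := by
    fin_cases j <;> simp at hj <;> simp at hj0 <;> simp_all [hr.ne']
  rw [h2, ht]
  fin_cases i <;> simp at hi <;> simp at hi0 <;> simp [hi0]

end Pool.Agent.Work.MP_320b68_gt.Circ
end

-- merged part: Pool.Agent.Work.MP_320b68_gt.CircMain
section
/-!
The shadow of a sample of the circle containing the seven points has an extra loop.
-/

namespace Pool.Agent.Work.MP_320b68_gt.Circ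

open scoped ENNReal Topology NNReal
open Set Complex

/-- Cliques of the sample. -/
def Cl (β : ℝ) (S σ : Finset E) : Prop := σ ⊆ S ∧ ∀ p ∈ σ, ∀ q ∈ σ, ‖p - q‖ < β

theorem mem_shadow {β : ℝ} {S : Finset E} {x : E} :
    x ∈ shadow β S ↔ ∃ σ : Finset E, Cl β S σ ∧ x ∈ convexHull ℝ (σ : Set E) := by
  simp only [shadow, mem_iUnion]
  constructor
  · rintro ⟨σ, h1, -, h2, h3⟩
    refine ⟨σ, ⟨h1, fun p hp q hq => ?_⟩, h3⟩
    rw [← dist_eq_norm]
    exact (Metric.dist_le_diam_of_mem σ.finite_toSet.isBounded hp hq).trans_lt h2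
  · rintro ⟨σ, ⟨h1, h2⟩, h3⟩
    have hne : σ.Nonempty := by
      rw [← Finset.coe_nonempty, ← convexHull_nonempty_iff (𝕜 := ℝ)]
      exact ⟨x, h3⟩
    obtain ⟨a, ha, h4⟩ := Finset.exists_max_image (σ ×ˢ σ) (fun a => ‖a.1 - a.2‖) (hne.product hne)
    rw [Finset.mem_product] at ha
    refine ⟨σ, h1, hne, (Metric.diam_le_of_forall_dist_le (norm_nonneg _) fun p hp q hq => ?_).trans_lt
      (h2 _ ha.1 _ ha.2), h3⟩
    rw [dist_eq_norm]
    exact h4 (p, q) (Finset.mem_product.2 ⟨hp, hq⟩)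

theorem hull_near {β : ℝ} {S σ : Finset E} (h : Cl β S σ) {p x : E} (hp : p ∈ σ)
    (hx : x ∈ convexHull ℝ (σ : Set E)) : ‖x - p‖ < β := by
  have : convexHull ℝ (σ : Set E) ⊆ Metric.ball p β :=
    convexHull_min (fun y hy => mem_ball_iff_norm.2 (h.2 y hy p hp)) (convex_ball p β)
  exact mem_ball_iff_norm.1 (this hx)

theorem step {C : Set E} (hC : IsPreconnected C) {Φ : E → ℂ} (hΦ : ContinuousOn Φ C) {n : ℤ}
    (h : ∀ x ∈ C, exp (Φ x) = θ x ^ n) {a b : ℝ} (ha : cir a ∈ C) (hb : cir b ∈ C)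
    (hab : |b - a| < 1) (hn : ∀ x ∈ C, ‖x - cir a‖ < 1) :
    Φ (cir a) - n * (a * I) = Φ (cir b) - n * (b * I) := by
  have hs : ∀ x ∈ C, θ x * exp (-(a * I)) ∈ slitPlane := fun x hx => by
    have h1 := (norm_θ_sub x (cir a)).trans_lt (hn x hx)
    have h2 : θ x * exp (-(a * I)) = 1 + (θ x - θ (cir a)) * exp (-(a * I)) := by
      rw [θ_cir, sub_mul, ← exp_add]
      simp
    rw [h2]
    refine mem_slitPlane_of_norm_lt_one ?_
    rwa [norm_mul, norm_exp, neg_re, re_ofReal_mul, I_re, mul_zero, neg_zero, Real.exp_zero,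
      mul_one]
  have := const_of_exp (D := fun x => Φ x - n * (log (θ x * exp (-(a * I))) + a * I)) hC
    (hΦ.sub (continuousOn_const.mul (((continuous_θ.mul continuous_const).continuousOn.clog
      hs).add continuousOn_const))) (fun x hx => by
      have h1 := slitPlane_ne_zero (hs x hx)
      rw [exp_sub, h x hx, exp_int_mul, exp_add, exp_log h1, mul_assoc, ← exp_add, neg_add_cancel,
        exp_zero, mul_one, div_self (zpow_ne_zero _ (left_ne_zero_of_mul h1))]) ha hb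
  have h3 := abs_lt.1 hab
  rw [θ_cir, θ_cir, ← exp_add, ← exp_add, log_exp (by simpa using Real.pi_pos)
    (by simpa using Real.pi_pos.le), log_exp (by simp; linarith only [h3, Real.pi_gt_three])
    (by simp; linarith [Real.pi_gt_three])] at this
  linear_combination this

variable {β κ ε r c s : ℝ}

theorem not_equiv (h : Par β κ ε r c s) {N : ℕ} {φ : ℕ → ℝ} (h1 : φ N = φ 0 + 2 * Real.pi)
    (h2 : ∀ j, |φ (j + 1) - φ j| < β) (h3 : ∀ j ≤ N, κ ≤ |cir (φ j) 1|) (S : Finset E)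
    (hS : ∀ p, p ∈ S ↔ (∃ j ≤ N, cir (φ j) = p) ∨ ∃ k, v ε r c s k = p) :
    IsEmpty (ContinuousMap.HomotopyEquiv (shadow β S) M) := by
  classical
  refine ⟨fun e => ?_⟩
  obtain ⟨hβ, hr, -⟩ := h.facts
  have hε := h.ε0
  have hv : ∀ k, v ε r c s k ∈ S := fun k => (hS _).2 (Or.inr ⟨k, rfl⟩)
  let X1 := convexHull ℝ ((S.filter fun p => ‖p - v ε r c s 2‖ < β ∧ ‖p - v ε r c s 0‖ < β ∧
    ‖p - v ε r c s 1‖ < β : Finset E) : Set E)
  let X2 := ⋃ σ ∈ {σ : Finset E | Cl β S σ ∧ ∃ i ≤ 2, v ε r c s i ∉ σ}, convexHull ℝ (σ : Set E)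
  have hX1 : X1 ⊆ Rep κ ε r s 1 fun k => 3 ≤ k := by
    refine hull_subset_Rep (c := c) fun p hp => ?_
    obtain ⟨hp, k2, k0, k1⟩ := Finset.mem_filter.1 hp
    rcases (hS p).1 hp with ⟨j, hj, rfl⟩ | ⟨k, rfl⟩
    · exact Or.inl ⟨cir_mem _, by simpa using (h.side (cir_mem _) (h3 j hj)).1 k2⟩
    · refine Or.inr ⟨k, fun hk => ?_, rfl⟩
      have : k = 3 ∨ k = 4 ∨ k = 5 ∨ k = 6 :=
        (by decide : ∀ k : Fin 7, 3 ≤ k → k = 3 ∨ k = 4 ∨ k = 5 ∨ k = 6) k hk
      rcases this with rfl | rfl | rfl | rfl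
      · exact h.nadj _ _ (by decide) k2
      · exact h.nadj _ _ (by decide) k2
      · exact h.nadj _ _ (by decide) k0
      · exact h.nadj _ _ (by decide) k1
  have key : ∀ x ∈ X1, x ∈ X2 → dep ε r x = 0 ∨ dep ε r x = 1 := by
    intro x hx hx2
    simp only [X2, mem_iUnion] at hx2
    obtain ⟨σ, ⟨hσ, i, hi, hi'⟩, hx2⟩ := hx2
    by_cases hall : ∀ j, 3 ≤ j → v ε r c s j ∈ σ
    · refine Or.inr (dep_one hε hr h.κ0 (hX1 hx) (hull_subset_Rep (c := c) (fun p hp => ?_) hx2))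
      rcases (hS p).1 (hσ.1 hp) with ⟨j, hj, rfl⟩ | ⟨k, rfl⟩
      · exact Or.inl ⟨cir_mem _, by
          simpa using (h.side (cir_mem _) (h3 j hj)).2 (hσ.2 _ hp _ (hall 5 (by decide)))⟩
      · refine Or.inr ⟨k, fun hk => ?_, rfl⟩
        have : k = 0 ∨ k = 1 ∨ k = 2 :=
          (by decide : ∀ k : Fin 7, k ≤ 2 → k = 0 ∨ k = 1 ∨ k = 2) k hk
        rcases this with rfl | rfl | rfl
        · exact h.nadj 5 _ (by decide) (hσ.2 _ (hall _ (by decide)) _ hp)
        · exact h.nadj 6 _ (by decide) (hσ.2 _ (hall _ (by decide)) _ hp)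
        · exact h.nadj 3 _ (by decide) (hσ.2 _ (hall _ (by decide)) _ hp)
    · push Not at hall
      obtain ⟨j, hj, hj'⟩ := hall
      refine Or.inl (dep_zero hε hr hi hj (hX1 hx) (hull_subset_Rep (c := c) (fun p hp => ?_) hx2))
      rcases (hS p).1 (hσ.1 hp) with ⟨l, -, rfl⟩ | ⟨k, rfl⟩
      · exact Or.inl ⟨cir_mem _, by simp⟩
      · refine Or.inr ⟨k, ?_, rfl⟩
        rintro (rfl | rfl)
        · exact hi' hp
        · exact hj' hp
  let g : E → ℂ := fun x => if x ∈ X1 then exp (dep ε r x * (2 * Real.pi * I)) else 1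
  have g1 : ∀ x ∈ X1, g x = exp (dep ε r x * (2 * Real.pi * I)) := fun x hx => if_pos hx
  have g2 : ∀ x ∈ X2, g x = 1 := fun x hx => by
    by_cases hx1 : x ∈ X1
    · rw [g1 x hx1]
      rcases key x hx1 hx with h | h <;> simp [h]
    · exact if_neg hx1
  have hc := continuous_dep ε r
  have hsub1 : ∀ σ, Cl β S σ → (∀ i ≤ 2, v ε r c s i ∈ σ) → convexHull ℝ (σ : Set E) ⊆ X1 :=
    fun σ hσ hall => convexHull_mono fun p hp => Finset.mem_filter.2 ⟨hσ.1 hp,
      hσ.2 _ hp _ (hall _ (by decide)), hσ.2 _ hp _ (hall _ (by decide)),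
      hσ.2 _ hp _ (hall _ (by decide))⟩
  have hsub2 : ∀ σ, Cl β S σ → ∀ i ≤ 2, v ε r c s i ∉ σ → convexHull ℝ (σ : Set E) ⊆ X2 :=
    fun σ hσ i hi hi' => subset_biUnion_of_mem (u := fun σ : Finset E => convexHull ℝ (σ : Set E))
      (show σ ∈ {σ : Finset E | Cl β S σ ∧ ∃ i ≤ 2, v ε r c s i ∉ σ} from ⟨hσ, i, hi, hi'⟩)
  have hsh : ∀ σ, Cl β S σ → convexHull ℝ (σ : Set E) ⊆ shadow β S :=
    fun σ hσ x hx => mem_shadow.2 ⟨σ, hσ, hx⟩
  have hg : ContinuousOn g (shadow β S) := by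
    refine ContinuousOn.mono (ContinuousOn.union_of_isClosed (s := X1) (t := X2)
      (ContinuousOn.congr (by fun_prop) g1) (continuousOn_const.congr g2)
      ((Finset.finite_toSet _).isClosed_convexHull ℝ) ?_) fun x hx => ?_
    · refine Finite.isClosed_biUnion ((S.powerset.finite_toSet).subset fun σ hσ => ?_)
        fun σ _ => σ.finite_toSet.isClosed_convexHull ℝ
      exact Finset.mem_powerset.2 hσ.1.1
    · obtain ⟨σ, hσ, hx⟩ := mem_shadow.1 hx
      by_cases hall : ∀ i ≤ 2, v ε r c s i ∈ σ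
      · exact Or.inl (hsub1 σ hσ hall hx)
      · push Not at hall
        obtain ⟨i, hi, hi'⟩ := hall
        exact Or.inr (hsub2 σ hσ i hi hi' hx)
  obtain ⟨m, n, hmn, Φ, hΦ, eΦ⟩ := dep_of_equiv e g θ hg continuous_θ.continuousOn
    (fun x _ => by
      simp only [g]
      split_ifs
      · exact exp_ne_zero _
      · exact one_ne_zero)
    (fun x hx => by
      obtain ⟨σ, hσ, hx⟩ := mem_shadow.1 hx
      obtain ⟨p, hp⟩ : (σ : Set E).Nonempty := (convexHull_nonempty_iff (𝕜 := ℝ)).1 ⟨x, hx⟩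
      refine θ_ne_of_near ?_ ((hull_near hσ hp hx).trans h.β1)
      rcases (hS p).1 (hσ.1 hp) with ⟨j, -, rfl⟩ | ⟨k, rfl⟩
      · exact (norm_θ (cir_mem _)).ge
      · exact (h.near k).1)
  have hpre : ∀ σ : Finset E, IsPreconnected (convexHull ℝ (σ : Set E)) :=
    fun σ => (convex_convexHull ℝ _).isPreconnected
  have hmem : ∀ {σ : Finset E} {p : E}, p ∈ σ → p ∈ convexHull ℝ (σ : Set E) :=
    fun hp => subset_convexHull ℝ _ hp
  have hn : n = 0 := by
    have hstep : ∀ j ≤ N, Φ (cir (φ 0)) - n * (φ 0 * I) = Φ (cir (φ j)) - n * (φ j * I) := by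
      intro j
      induction j with
      | zero => exact fun _ => rfl
      | succ j ih =>
        intro hj
        have hσ : Cl β S {cir (φ j), cir (φ (j + 1))} := by
          have h4 := (norm_cir_le _ _).trans_lt (h2 j)
          refine ⟨fun p hp => (hS p).2 (Or.inl ?_), fun p hp q hq => ?_⟩
          · rcases Finset.mem_insert.1 hp with rfl | hp
            · exact ⟨j, by omega, rfl⟩
            · exact ⟨j + 1, hj, (Finset.mem_singleton.1 hp).symm⟩
          · simp only [Finset.mem_insert, Finset.mem_singleton] at hp hq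
            rcases hp with rfl | rfl <;> rcases hq with rfl | rfl
            · simpa using hβ
            · rwa [norm_sub_rev]
            · exact h4
            · simpa using hβ
        have h0 : v ε r c s 0 ∉ ({cir (φ j), cir (φ (j + 1))} : Finset E) := fun hp => by
          have : v ε r c s 0 ∈ M := by
            rcases Finset.mem_insert.1 hp with hp | hp
            · exact hp ▸ cir_mem _
            · exact Finset.mem_singleton.1 hp ▸ cir_mem _
          exact hε.ne' (this.2 6 (by decide))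
        refine (ih (by omega)).trans (step (hpre _) (hΦ.mono (hsh _ hσ)) (fun x hx => ?_)
          (hmem (by simp)) (hmem (by simp)) ((h2 j).trans h.β1)
          fun x hx => (hull_near hσ (by simp) hx).trans h.β1)
        rw [eΦ x (hsh _ hσ hx), g2 x (hsub2 _ hσ 0 (by decide) h0 hx), one_zpow, one_mul]
    have := hstep N le_rfl
    rw [h1, cir_add] at this
    have h5 : (n : ℂ) * (2 * Real.pi * I) = 0 := by
      push_cast at this
      linear_combination this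
    exact_mod_cast (mul_eq_zero.1 h5).resolve_right two_pi_I_ne_zero
  subst hn
  have hcl : ∀ T : Finset (Fin 7), (∀ i ∈ T, ∀ j ∈ T, (i ≤ 2 ∧ j ≤ 2) ∨ (3 ≤ i ∧ 3 ≤ j) ∨
      ((i = 1 ∨ i = 3) ∧ (j = 1 ∨ j = 3))) → Cl β S (T.image (v ε r c s)) := fun T hT => by
    refine ⟨fun p hp => ?_, fun p hp q hq => ?_⟩
    · obtain ⟨i, -, rfl⟩ := Finset.mem_image.1 hp
      exact hv i
    · obtain ⟨i, hi, rfl⟩ := Finset.mem_image.1 hp
      obtain ⟨j, hj, rfl⟩ := Finset.mem_image.1 hq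
      exact h.adj i j (hT i hi j hj)
  have hin : ∀ (T : Finset (Fin 7)), ∀ i ∈ T, v ε r c s i ∈ T.image (v ε r c s) :=
    fun T i hi => Finset.mem_image_of_mem _ hi
  have hflat : ∀ T : Finset (Fin 7), Cl β S (T.image (v ε r c s)) → 3 ∈ T →
      ∀ x ∈ convexHull ℝ ((T.image (v ε r c s) : Finset E) : Set E), Φ x = Φ (v ε r c s 3) :=
    fun T hT h3 x hx => const_of_exp (hpre _) (hΦ.mono (hsh _ hT)) (fun y hy => by
      rw [eΦ y (hsh _ hT hy), g2 y (hsub2 _ hT 2 le_rfl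
        (fun hp => h.nadj 3 2 (by decide) (hT.2 _ (hin T 3 h3) _ hp)) hy)]
      simp) hx (hmem (hin T 3 h3))
  let w : Fin 7 → ℝ := fun k => ![1, 1, 2 * r, 1, 1, r, r] k / (2 + 2 * r)
  have hw : ∀ T : Finset (Fin 7), ∑ k ∈ T, w k = 1 → ∑ k ∈ T, w k • v ε r c s k ∈
      convexHull ℝ ((T.image (v ε r c s) : Finset E) : Set E) := fun T hT =>
    (convex_convexHull ℝ _).sum_mem (fun k _ => by
      fin_cases k <;> simp only [w] <;> simp <;> positivity) hT fun k hk => hmem (hin T k hk)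
  have z1 := hw {0, 1, 2} (by simp [w]; field_simp; ring)
  have z2 := hw {3, 4, 5, 6} (by simp [w]; field_simp; ring)
  have hz : ∑ k ∈ ({0, 1, 2} : Finset (Fin 7)), w k • v ε r c s k =
      ∑ k ∈ ({3, 4, 5, 6} : Finset (Fin 7)), w k • v ε r c s k := by
    ext j
    fin_cases j <;> simp [w, v] <;> ring
  have hd : dep ε r (∑ k ∈ ({0, 1, 2} : Finset (Fin 7)), w k • v ε r c s k) = 1 := by
    simp [w, v, dep]
    field_simp
    ring
  have c1 := hcl {0, 1, 2} (by decide)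
  have k1 := const_of_exp (D := fun x => Φ x - m * (dep ε r x * (2 * Real.pi * I))) (hpre _)
    ((hΦ.mono (hsh _ c1)).sub (by fun_prop)) (fun y hy => by
      rw [exp_sub, eΦ y (hsh _ c1 hy), g1 y (hsub1 _ c1 (fun i hi => hin _ i (by
        revert i; decide)) hy), exp_int_mul, zpow_zero, mul_one,
        div_self (zpow_ne_zero _ (exp_ne_zero _))]) z1 (hmem (hin _ 1 (by decide)))
  have k2 := hflat _ (hcl {3, 4, 5, 6} (by decide)) (by decide) _ z2
  have k3 := hflat _ (hcl {1, 3} (by decide)) (by decide) _ (hmem (hin _ 1 (by decide)))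
  have k4 : dep ε r (v ε r c s 1) = 0 := by simp [dep, v]
  rw [hd, k4, hz, k2, k3] at k1
  have h5 : (m : ℂ) * (2 * Real.pi * I) = 0 := by
    push_cast at k1
    linear_combination -k1
  have h6 : m = 0 := by exact_mod_cast (mul_eq_zero.1 h5).resolve_right two_pi_I_ne_zero
  simp [h6] at hmn

theorem exists_par {β κ η : ℝ} (h0 : 0 < β) (h1 : β < 1) (hκ : 0 < κ) (hη : 0 < η) :
    ∃ ε r c s, Par β κ ε r c s ∧ 5 * ε ≤ η := by
  obtain ⟨ε, hε, e1, e2, e3⟩ : ∃ ε : ℝ, 0 < ε ∧ ε ≤ β / 10 ∧ ε ≤ κ / 3 ∧ ε ≤ η / 5 :=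
    ⟨min (β / 10) (min (κ / 3) (η / 5)), by positivity, min_le_left _ _,
      (min_le_right _ _).trans (min_le_left _ _), (min_le_right _ _).trans (min_le_right _ _)⟩
  have h2 : 0 < β ^ 2 - 30 * ε ^ 2 := by linarith only [h0, e1, hε, mul_nonneg_of_nonpos_of_nonpos (le_of_lt (Mathlib.Tactic.Linarith.sub_neg_of_lt h0)) (Mathlib.Tactic.Linarith.sub_nonpos_of_le e1), mul_pos_of_neg_of_neg (Mathlib.Tactic.Linarith.sub_neg_of_lt hε) (Mathlib.Tactic.Linarith.sub_neg_of_lt hε), mul_nonneg_of_nonpos_of_nonpos (le_of_lt (Mathlib.Tactic.Linarith.sub_neg_of_lt hε)) (Mathlib.Tactic.Linarith.sub_nonpos_of_le e1)]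
  have h3 : β ^ 2 - 30 * ε ^ 2 < 1 := by linarith only [h1, h0, sq_nonneg ε, mul_pos_of_neg_of_neg (Mathlib.Tactic.Linarith.sub_neg_of_lt h0) (Mathlib.Tactic.Linarith.sub_neg_of_lt h1)]
  have h4 : 0 < 1 - (1 - (β ^ 2 - 30 * ε ^ 2) / 2) ^ 2 := by linarith only [h3, h2, h0, e1, hε, mul_nonneg_of_nonpos_of_nonpos (Mathlib.Tactic.Linarith.sub_nonpos_of_le (sq_nonneg β)) (le_of_lt (Mathlib.Tactic.Linarith.sub_neg_of_lt h3)), mul_nonneg_of_nonpos_of_nonpos (Mathlib.Tactic.Linarith.sub_nonpos_of_le (sq_nonneg ε)) (le_of_lt (Mathlib.Tactic.Linarith.sub_neg_of_lt h2)), mul_nonneg_of_nonpos_of_nonpos (le_of_lt (Mathlib.Tactic.Linarith.sub_neg_of_lt h0)) (Mathlib.Tactic.Linarith.sub_nonpos_of_le e1), mul_pos_of_neg_of_neg (Mathlib.Tactic.Linarith.sub_neg_of_lt hε) (Mathlib.Tactic.Linarith.sub_neg_of_lt hε), mul_nonneg_of_nonpos_of_nonpos (le_of_lt (Mathlib.Tactic.Linarith.sub_neg_of_lt hε)) (Mathlib.Tactic.Linarith.sub_nonpos_of_le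 e1)]
  refine ⟨ε, ε ^ 2 / 100, 1 - (β ^ 2 - 30 * ε ^ 2) / 2,
    √(1 - (1 - (β ^ 2 - 30 * ε ^ 2) / 2) ^ 2), ⟨hε, h1, by linarith only [e1], by ring, by ring, ?_,
    Real.sqrt_pos.2 h4, hκ, by linarith only [h0, e2, hε, e1, mul_nonneg_of_nonpos_of_nonpos (le_of_lt (Mathlib.Tactic.Linarith.sub_neg_of_lt h0)) (Mathlib.Tactic.Linarith.sub_nonpos_of_le e2), mul_nonneg_of_nonpos_of_nonpos (le_of_lt (Mathlib.Tactic.Linarith.sub_neg_of_lt hε)) (Mathlib.Tactic.Linarith.sub_nonpos_of_le e1)]⟩, by linarith only [e3]⟩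
  rw [Real.sq_sqrt h4.le]
  ring

theorem main {β η : ℝ} (h0 : 0 < β) (h1 : β < 1) (hη : 0 < η) :
    ∃ S : Finset E, Metric.hausdorffEDist (S : Set E) M < ENNReal.ofReal η ∧
      IsEmpty (ContinuousMap.HomotopyEquiv (shadow β S) M) := by
  classical
  have hπ := Real.pi_pos
  have hmin : 0 < min β (η / 2) := lt_min h0 (by positivity)
  obtain ⟨n, hn⟩ := exists_nat_gt (Real.pi / min β (η / 2))
  have hn0 : (0 : ℝ) < n := lt_trans (by positivity) hn
  have hd : Real.pi / n < min β (η / 2) := by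
    rw [div_lt_iff₀ hmin] at hn
    rw [div_lt_iff₀ hn0]
    linarith only [hn]
  set d := Real.pi / n with hd'
  have hd0 : 0 < d := by positivity
  have hdn : d * n = Real.pi := div_mul_cancel₀ _ hn0.ne'
  let φ : ℕ → ℝ := fun j => (j + 1 / 2) * d
  have hne : ∀ j, 0 < |cir (φ j) 1| := fun j => by
    rw [abs_pos, cir_one]
    intro h
    obtain ⟨k, hk⟩ := Real.sin_eq_zero_iff.1 h
    have h2 : (2 * (k * n) : ℝ) = 2 * j + 1 := by
      refine mul_right_cancel₀ hd0.ne' ?_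
      rw [← hdn] at hk
      simp only [φ] at hk
      linarith only [hk]
    have h3 : (2 * (k * n) : ℤ) = 2 * j + 1 := by exact_mod_cast h2
    omega
  obtain ⟨j0, -, hj0⟩ := Finset.exists_min_image (Finset.range (2 * n + 1))
    (fun j => |cir (φ j) 1|) ⟨0, by simp⟩
  obtain ⟨ε, r, c, s, hP, hε⟩ := exists_par h0 h1 (hne j0) (half_pos hη)
  have hS : ∀ p, p ∈ (Finset.range (2 * n + 1)).image (fun j => cir (φ j)) ∪
      Finset.univ.image (v ε r c s) ↔ (∃ j ≤ 2 * n, cir (φ j) = p) ∨ ∃ k, v ε r c s k = p := by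
    intro p
    simp
  refine ⟨_, lt_of_le_of_lt (Metric.hausdorffEDist_le_of_mem_edist (r := ENNReal.ofReal (η / 2))
    (fun p hp => ?_) fun p hp => ?_) ((ENNReal.ofReal_lt_ofReal_iff hη).2 (half_lt_self hη)),
    not_equiv hP (N := 2 * n) (φ := φ) ?_ (fun j => ?_)
      (fun j hj => hj0 j (Finset.mem_range.2 (by omega))) _ hS⟩
  · rcases (hS p).1 hp with ⟨j, -, rfl⟩ | ⟨k, rfl⟩
    · exact ⟨_, cir_mem (φ j), by simp⟩
    · obtain ⟨q, hq, h⟩ := (hP.near k).2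
      refine ⟨q, hq, ?_⟩
      rw [edist_dist, dist_eq_norm]
      exact ENNReal.ofReal_le_ofReal (h.trans hε)
  · obtain ⟨t, ht, ht', rfl⟩ : ∃ t, 0 ≤ t ∧ t ≤ 2 * Real.pi ∧ cir t = p := by
      rcases le_total 0 (arg (θ p)) with h | h
      · exact ⟨_, h, by linarith only [hπ, arg_le_pi (θ p)], cir_arg hp⟩
      · exact ⟨_, by linarith only [hπ, neg_pi_lt_arg (θ p)], by linarith only [h],
          (cir_add _).trans (cir_arg hp)⟩
    refine ⟨_, (hS _).2 (Or.inl ⟨⌊t / d⌋₊, Nat.floor_le_of_le ?_, rfl⟩), ?_⟩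
    · rw [div_le_iff₀ hd0]
      push_cast
      linarith only [hdn, ht']
    · rw [edist_dist, dist_eq_norm]
      refine ENNReal.ofReal_le_ofReal ((norm_cir_le _ _).trans ?_)
      have h2 := (le_div_iff₀ hd0).1 (Nat.floor_le (div_nonneg ht hd0.le))
      have h3 := (div_lt_iff₀ hd0).1 (Nat.lt_floor_add_one (t / d))
      have h4 := hd.trans_le (min_le_right _ _)
      simp only [φ]
      exact abs_le.2 ⟨by linarith only [hd0, h2, h4], by linarith only [hd0, h3, h4]⟩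
  · simp only [φ]
    push_cast
    linarith only [hdn]
  · have : φ (j + 1) - φ j = d := by
      simp only [φ]
      push_cast
      ring
    rw [this, abs_of_pos hd0]
    exact hd.trans_le (min_le_left _ _)

end Pool.Agent.Work.MP_320b68_gt.Circ
end
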