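import Mathlib

/-!
The notions used in the statement on shadows of Euclidean Vietoris-Rips complexes.
-/

namespace Pool.Agent.Work.MP_320b68_gt

open scoped ENNReal Topology

universe u

variable {N : ℕ}

/-- The intrinsic distance of `M`: the infimum of the Euclidean lengths (total variations) of the
paths in `M` from `p` to `q`. -/
noncomputable def intrinsicDist (M : Set (EuclideanSpace ℝ (Fin N)))
    (p q : EuclideanSpace ℝ (Fin N)) : ℝ≥0∞ :=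
  ⨅ (γ : Path p q) (_ : ∀ t, γ t ∈ M), eVariationOn γ Set.univ

/-- The standing assumptions on `M`: compact, connected, geodesic for its intrinsic distance,
a neighbourhood retract, and (M1), (M2), (M3). -/
structure Admissible (M : Set (EuclideanSpace ℝ (Fin N))) : Prop where
  compact : IsCompact M
  connected : IsConnected M
  geodesic : ∀ p ∈ M, ∀ q ∈ M, ∃ (d : ℝ) (c : ℝ → EuclideanSpace ℝ (Fin N)), 0 ≤ d ∧
    intrinsicDist M p q = ENNReal.ofReal d ∧ c 0 = p ∧ c d = q ∧ (∀ t ∈ Set.Icc 0 d, c t ∈ M) ∧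
    ∀ s ∈ Set.Icc 0 d, ∀ t ∈ Set.Icc 0 d, intrinsicDist M (c s) (c t) = ENNReal.ofReal |s - t|
  m1 : ∃ ρ : ℝ, 0 < ρ ∧ ∀ (X : Type u) [TopologicalSpace X] (f g : C(X, M)),
    (∀ x, intrinsicDist M (f x) (g x) < ENNReal.ofReal ρ) → f.Homotopic g
  m2 : ∃ δ ξ : ℝ, 0 < δ ∧ 1 < ξ ∧ ∀ p ∈ M, ∀ q ∈ M, ‖p - q‖ < δ →
    ENNReal.ofReal ‖p - q‖ ≤ intrinsicDist M p q ∧
      intrinsicDist M p q ≤ ENNReal.ofReal (ξ * ‖p - q‖)
  m3 : ∃ (U : Set (EuclideanSpace ℝ (Fin N)))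
      (π : EuclideanSpace ℝ (Fin N) → EuclideanSpace ℝ (Fin N)) (ε : ℝ → ℝ),
    U ∈ 𝓝ˢ M ∧ ContinuousOn π U ∧ Set.MapsTo π U M ∧ (∀ p ∈ M, π p = p) ∧
    (∀ r : ℝ, 0 < r → {x | Metric.infDist x M ≤ r} ⊆ U →
      0 < ε r ∧ ∀ x, Metric.infDist x M ≤ r → ‖π x - x‖ < ε r) ∧
    Filter.Tendsto ε (𝓝[>] 0) (𝓝 0)

/-- The shadow of the Euclidean Vietoris-Rips complex of `S` at scale `β`: the union of the convex
hulls of the nonempty subsets of `S` of diameter less than `β`. -/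
def shadow (β : ℝ) (S : Finset (EuclideanSpace ℝ (Fin N))) : Set (EuclideanSpace ℝ (Fin N)) :=
  ⋃ (σ : Finset (EuclideanSpace ℝ (Fin N))) (_ : σ ⊆ S) (_ : σ.Nonempty)
    (_ : Metric.diam (σ : Set (EuclideanSpace ℝ (Fin N))) < β),
    convexHull ℝ (σ : Set (EuclideanSpace ℝ (Fin N)))

end Pool.Agent.Work.MP_320b68_gt
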