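import Pool.Agent.Work.MP_320b68_gt.Defs

/-!
A Lipschitz graph over the unit interval satisfies the standing assumptions.
-/

namespace Pool.Agent.Work.MP_320b68_gt

open scoped ENNReal Topology NNReal
open Set

universe u

variable {N : ℕ}

lemma intrinsicDist_comm_le (M : Set (EuclideanSpace ℝ (Fin N))) (p q : EuclideanSpace ℝ (Fin N)) :
    intrinsicDist M q p ≤ intrinsicDist M p q := by
  refine le_iInf₂ fun γ hγ => ?_
  refine iInf₂_le_of_le γ.symm (fun t => hγ _) ?_
  exact eVariationOn.comp_le_of_antitoneOn γ (s := univ) (t := univ) unitInterval.symm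
    (fun x _ y _ h => unitInterval.symm_le_symm.2 h) (mapsTo_univ _ _)

lemma intrinsicDist_comm (M : Set (EuclideanSpace ℝ (Fin N))) (p q : EuclideanSpace ℝ (Fin N)) :
    intrinsicDist M p q = intrinsicDist M q p :=
  le_antisymm (intrinsicDist_comm_le M q p) (intrinsicDist_comm_le M p q)

section

variable {γ : ℝ → EuclideanSpace ℝ (Fin (N + 1))} {K : ℝ≥0}

lemma abs_le_norm (h0 : ∀ t, γ t 0 = t) (s t : ℝ) : |s - t| ≤ ‖γ s - γ t‖ := by
  have := PiLp.norm_apply_le (γ s - γ t) 0
  simpa [h0] using this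

lemma intrinsicDist_eq (hK : LipschitzWith K γ) (h0 : ∀ t, γ t 0 = t) {s t : ℝ}
    (hs : s ∈ Icc (0 : ℝ) 1) (ht : t ∈ Icc (0 : ℝ) 1) (hst : s ≤ t) :
    intrinsicDist (γ '' Icc 0 1) (γ s) (γ t) = eVariationOn γ (Icc s t) := by
  apply le_antisymm
  · let φ : unitInterval → ℝ := fun u => s + u * (t - s)
    have hφ : Monotone φ := fun x y h => by
      have : (x : ℝ) ≤ y := h
      simp only [φ]
      nlinarith
    have hm : MapsTo φ univ (Icc s t) := fun u _ => by
      have h1 := u.2.1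
      have h2 := u.2.2
      simp only [φ]
      constructor <;> nlinarith
    let ω : Path (γ s) (γ t) :=
      { toFun := γ ∘ φ
        continuous_toFun := hK.continuous.comp (by fun_prop)
        source' := by simp [φ]
        target' := by simp [φ] }
    refine iInf₂_le_of_le ω (fun u => ⟨φ u, ?_, rfl⟩) ?_
    · have := hm (mem_univ u)
      exact ⟨hs.1.trans this.1, this.2.trans ht.2⟩
    · exact eVariationOn.comp_le_of_monotoneOn γ φ (hφ.monotoneOn _) hm
  · refine le_iInf₂ fun ω hω => ?_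
    let x : unitInterval → ℝ := fun u => ω u 0
    have hx : Continuous x := by fun_prop
    have hωx : ∀ u, ω u = γ (x u) := by
      intro u
      obtain ⟨r, -, hr⟩ := hω u
      simp only [x]
      rw [← hr, h0]
    have hx0 : x 0 = s := by simp [x, h0]
    have hx1 : x 1 = t := by simp [x, h0]
    let τ : ℝ → unitInterval := fun y => sInf {u | x u = y}
    have hne : ∀ y ∈ Icc s t, ∀ v : unitInterval, y ≤ x v → ∃ u ≤ v, x u = y := by
      intro y hy v hv
      have := intermediate_value_Icc (a := (0 : unitInterval)) (b := v) (f := x)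
        unitInterval.nonneg' hx.continuousOn
      obtain ⟨u, hu, hu'⟩ := this ⟨hx0 ▸ hy.1, hv⟩
      exact ⟨u, hu.2, hu'⟩
    have hτ : ∀ y ∈ Icc s t, x (τ y) = y := by
      intro y hy
      obtain ⟨u, -, hu⟩ := hne y hy 1 (hx1 ▸ hy.2)
      exact (isClosed_eq hx continuous_const).sInf_mem ⟨u, hu⟩
    have hmono : MonotoneOn τ (Icc s t) := by
      intro y hy y' hy' h
      obtain ⟨u, hu, hu'⟩ := hne y hy (τ y') (by rw [hτ y' hy']; exact h)
      exact (sInf_le (s := {u | x u = y}) hu').trans hu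
    have : eVariationOn γ (Icc s t) = eVariationOn (ω ∘ τ) (Icc s t) := by
      refine eVariationOn.eq_of_eqOn fun y hy => ?_
      rw [Function.comp_apply, hωx, hτ y hy]
    rw [this]
    exact eVariationOn.comp_le_of_monotoneOn ω τ hmono (mapsTo_univ _ _)

/-- Arc length from the parameter zero. -/
noncomputable def arc (γ : ℝ → EuclideanSpace ℝ (Fin (N + 1))) (t : ℝ) : ℝ :=
  (eVariationOn γ (Icc 0 t)).toReal

lemma var_le (hK : LipschitzWith K γ) (s t : ℝ) :
    eVariationOn γ (Icc s t) ≤ ENNReal.ofReal (K * (t - s)) := by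
  have := (hK.lipschitzOnWith (s := univ)).comp_eVariationOn_le (g := id) (s := Icc s t)
    (mapsTo_univ _ _)
  rw [eVariationOn_id_Icc] at this
  rw [ENNReal.ofReal_mul K.coe_nonneg, ENNReal.ofReal_coe_nnreal]
  exact this

lemma var_eq (hK : LipschitzWith K γ) {s t : ℝ} (hs : 0 ≤ s) (hst : s ≤ t) :
    eVariationOn γ (Icc s t) = ENNReal.ofReal (arc γ t - arc γ s) ∧ 0 ≤ arc γ t - arc γ s := by
  have h := eVariationOn.Icc_add_Icc γ (s := univ) hs hst (mem_univ _)
  simp only [univ_inter] at h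
  have f1 : eVariationOn γ (Icc 0 s) ≠ ⊤ := ne_top_of_le_ne_top ENNReal.ofReal_ne_top (var_le hK _ _)
  have f2 : eVariationOn γ (Icc s t) ≠ ⊤ := ne_top_of_le_ne_top ENNReal.ofReal_ne_top (var_le hK _ _)
  have : arc γ t - arc γ s = (eVariationOn γ (Icc s t)).toReal := by
    rw [arc, arc, ← h, ENNReal.toReal_add f1 f2]
    ring
  rw [this, ENNReal.ofReal_toReal f2]
  exact ⟨rfl, ENNReal.toReal_nonneg⟩

lemma arc_bounds (hK : LipschitzWith K γ) {s t : ℝ} (hs : 0 ≤ s)
    (hst : s ≤ t) : ‖γ s - γ t‖ ≤ arc γ t - arc γ s ∧ arc γ t - arc γ s ≤ K * (t - s) := by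
  obtain ⟨h1, h2⟩ := var_eq hK hs hst
  constructor
  · have := eVariationOn.edist_le γ (s := Icc s t) (left_mem_Icc.2 hst) (right_mem_Icc.2 hst)
    rw [h1, edist_dist, dist_eq_norm] at this
    exact (ENNReal.ofReal_le_ofReal_iff h2).1 this
  · have := var_le hK s t
    rw [h1] at this
    exact (ENNReal.ofReal_le_ofReal_iff (mul_nonneg K.2 (sub_nonneg.2 hst))).1 this

lemma intrinsicDist_eq_arc (hK : LipschitzWith K γ) (h0 : ∀ t, γ t 0 = t) {s t : ℝ}
    (hs : s ∈ Icc (0 : ℝ) 1) (ht : t ∈ Icc (0 : ℝ) 1) :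
    intrinsicDist (γ '' Icc 0 1) (γ s) (γ t) = ENNReal.ofReal |arc γ s - arc γ t| := by
  rcases le_total s t with h | h
  · obtain ⟨h1, h2⟩ := var_eq hK hs.1 h
    rw [intrinsicDist_eq hK h0 hs ht h, h1, abs_sub_comm, abs_of_nonneg h2]
  · obtain ⟨h1, h2⟩ := var_eq hK ht.1 h
    rw [intrinsicDist_comm, intrinsicDist_eq hK h0 ht hs h, h1, abs_of_nonneg h2]

lemma abs_arc_bounds (hK : LipschitzWith K γ) {s t : ℝ} (hs : 0 ≤ s) (ht : 0 ≤ t) :
    ‖γ s - γ t‖ ≤ |arc γ s - arc γ t| ∧ |arc γ s - arc γ t| ≤ K * |s - t| := by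
  rcases le_total s t with h | h
  · obtain ⟨h1, h2⟩ := arc_bounds hK hs h
    rw [abs_sub_comm, abs_sub_comm s, abs_of_nonneg ((norm_nonneg _).trans h1),
      abs_of_nonneg (sub_nonneg.2 h)]
    exact ⟨h1, h2⟩
  · obtain ⟨h1, h2⟩ := arc_bounds hK ht h
    rw [abs_of_nonneg ((norm_nonneg _).trans h1), abs_of_nonneg (sub_nonneg.2 h), norm_sub_rev]
    exact ⟨h1, h2⟩

lemma homotopic_graph (hK : LipschitzWith K γ) (h0 : ∀ t, γ t 0 = t) (X : Type u)
    [TopologicalSpace X] (f g : C(X, γ '' Icc 0 1)) : f.Homotopic g := by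
  have hmem : ∀ p : γ '' Icc 0 1, p.1 0 ∈ Icc (0 : ℝ) 1 ∧ γ (p.1 0) = p := by
    rintro ⟨_, r, hr, rfl⟩
    simp only [h0]
    exact ⟨hr, trivial⟩
  refine ⟨⟨⟨fun z => ⟨γ ((1 - z.1) * (f z.2).1 0 + z.1 * (g z.2).1 0), _, ?_, rfl⟩, ?_⟩, ?_, ?_⟩⟩
  · have h1 := (hmem (f z.2)).1
    have h2 := (hmem (g z.2)).1
    have h3 := z.1.2
    constructor <;> nlinarith [h1.1, h1.2, h2.1, h2.2, h3.1, h3.2]
  · refine Continuous.subtype_mk (hK.continuous.comp ?_) _
    fun_prop
  · intro x
    apply Subtype.ext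
    simpa using (hmem (f x)).2
  · intro x
    apply Subtype.ext
    simpa using (hmem (g x)).2

lemma contractible_graph (hK : LipschitzWith K γ) (h0 : ∀ t, γ t 0 = t) :
    ContractibleSpace (γ '' Icc 0 1) :=
  (contractible_iff_id_nullhomotopic _).2
    ⟨⟨γ 0, 0, by simp, rfl⟩, homotopic_graph hK h0 _ _ _⟩

theorem admissible_graph (hK : LipschitzWith K γ) (h0 : ∀ t, γ t 0 = t) :
    Admissible.{u} (γ '' Icc 0 1) where
  compact := isCompact_Icc.image hK.continuous
  connected := (isConnected_Icc zero_le_one).image _ hK.continuous.continuousOn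
  geodesic := by
    rintro _ ⟨s, hs, rfl⟩ _ ⟨t, ht, rfl⟩
    have hcont : ContinuousOn (arc γ) (Icc 0 1) := by
      refine (LipschitzOnWith.of_dist_le_mul (K := K) fun x hx y hy => ?_).continuousOn
      exact (abs_arc_bounds hK hx.1 hy.1).2
    have hinj : InjOn (arc γ) (Icc 0 1) := by
      intro x hx y hy h
      have h1 := (abs_arc_bounds hK hx.1 hy.1).1
      have h2 := abs_le_norm h0 x y
      rw [h, sub_self, abs_zero] at h1
      exact sub_eq_zero.1 (abs_nonpos_iff.1 (h2.trans h1))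
    have hsurj : SurjOn (arc γ) (Icc 0 1) (uIcc (arc γ s) (arc γ t)) := by
      refine (intermediate_value_uIcc (a := s) (b := t) (hcont.mono ?_)).trans (image_mono ?_)
      all_goals exact uIcc_subset_Icc hs ht
    let e : ℝ := if arc γ s ≤ arc γ t then 1 else -1
    have he : |e| = 1 := by
      simp only [e]; split_ifs <;> simp
    have hmem : ∀ u ∈ Icc 0 |arc γ s - arc γ t|,
        arc γ s + e * u ∈ uIcc (arc γ s) (arc γ t) := by
      intro u hu
      simp only [e]
      split_ifs with h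
      · rw [abs_of_nonpos (by linarith)] at hu
        rw [uIcc_of_le h]
        constructor <;> linarith [hu.1, hu.2]
      · push Not at h
        rw [abs_of_nonneg (by linarith)] at hu
        rw [uIcc_of_ge h.le]
        constructor <;> linarith [hu.1, hu.2]
    have hend : arc γ s + e * |arc γ s - arc γ t| = arc γ t := by
      simp only [e]
      split_ifs with h
      · rw [abs_of_nonpos (by linarith)]; ring
      · rw [abs_of_nonneg (by linarith)]; ring
    refine ⟨|arc γ s - arc γ t|, fun u => γ ((arc γ).invFunOn (Icc 0 1) (arc γ s + e * u)),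
      abs_nonneg _, intrinsicDist_eq_arc hK h0 hs ht, ?_, ?_, ?_, ?_⟩
    · simp only [mul_zero, add_zero]
      rw [hinj.leftInvOn_invFunOn hs]
    · simp only [hend]
      rw [hinj.leftInvOn_invFunOn ht]
    · intro u hu
      exact ⟨_, hsurj.mapsTo_invFunOn (hmem u hu), rfl⟩
    · intro u hu v hv
      rw [intrinsicDist_eq_arc hK h0 (hsurj.mapsTo_invFunOn (hmem u hu))
        (hsurj.mapsTo_invFunOn (hmem v hv)), hsurj.rightInvOn_invFunOn (hmem u hu),
        hsurj.rightInvOn_invFunOn (hmem v hv), add_sub_add_left_eq_sub, ← mul_sub, abs_mul, he,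
        one_mul]
  m1 := ⟨1, one_pos, fun X _ f g _ => homotopic_graph hK h0 X f g⟩
  m2 := by
    refine ⟨1, K + 2, one_pos, by linarith [K.2], ?_⟩
    rintro _ ⟨s, hs, rfl⟩ _ ⟨t, ht, rfl⟩ -
    obtain ⟨h1, h2⟩ := abs_arc_bounds hK hs.1 ht.1
    have h3 := abs_le_norm h0 s t
    rw [intrinsicDist_eq_arc hK h0 hs ht]
    refine ⟨ENNReal.ofReal_le_ofReal h1, ENNReal.ofReal_le_ofReal ?_⟩
    have hK0 : (0 : ℝ) ≤ K := K.2
    nlinarith [norm_nonneg (γ s - γ t)]
  m3 := by
    refine ⟨univ, fun z => γ (projIcc 0 1 zero_le_one (z 0)), fun r => (K + 2) * r,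
      Filter.univ_mem, ?_, fun z _ => ⟨_, (projIcc 0 1 zero_le_one (z 0)).2, rfl⟩, ?_, ?_, ?_⟩
    · refine (hK.continuous.comp (continuous_subtype_val.comp
        (continuous_projIcc.comp ?_))).continuousOn
      fun_prop
    · rintro _ ⟨s, hs, rfl⟩
      simp only [h0]
      rw [projIcc_of_mem _ hs]
    · intro r hr _
      have hK0 : (0 : ℝ) ≤ K := K.2
      refine ⟨by positivity, fun z hz => ?_⟩
      obtain ⟨_, ⟨t, ht, rfl⟩, h⟩ := (isCompact_Icc.image hK.continuous).exists_infDist_eq_dist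
        (s := γ '' Icc 0 1) ⟨γ 0, 0, by simp, rfl⟩ z
      rw [h, dist_eq_norm] at hz
      have h1 : |z 0 - t| ≤ r := by
        have := PiLp.norm_apply_le (z - γ t) 0
        simp only [PiLp.sub_apply, h0, Real.norm_eq_abs] at this
        exact this.trans hz
      have h2 : |(projIcc 0 1 zero_le_one (z 0) : ℝ) - t| ≤ r := by
        have := abs_projIcc_sub_projIcc (h := zero_le_one) (c := z 0) (d := t)
        rw [projIcc_of_mem _ ht] at this
        exact this.trans h1
      have h3 := hK.dist_le_mul (projIcc 0 1 zero_le_one (z 0) : ℝ) t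
      rw [dist_eq_norm, Real.dist_eq] at h3
      have h4 := norm_sub_le_norm_sub_add_norm_sub (γ (projIcc 0 1 zero_le_one (z 0))) (γ t) z
      rw [norm_sub_rev (γ t)] at h4
      nlinarith
    · have : Filter.Tendsto (fun r : ℝ => ((K : ℝ) + 2) * r) (𝓝 0) (𝓝 (((K : ℝ) + 2) * 0)) :=
        (continuous_const.mul continuous_id).tendsto 0
      rw [mul_zero] at this
      exact this.mono_left nhdsWithin_le_nhds

end

end Pool.Agent.Work.MP_320b68_gt
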