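import Pool.Agent.Work.MP_320b68_gt.Graph

-- merged part: Pool.Agent.Work.MP_320b68_gt.Main
section
/-!
A Lipschitz arc in three-space with loops at all small scales.
-/

namespace Pool.Agent.Work.MP_320b68_gt

open scoped ENNReal Topology NNReal
open Set Complex

section Log

variable {E : Type} [TopologicalSpace E] {T : Set E} {F : E → ℂ}

lemma exists_log [ContractibleSpace T] (hF : Continuous F) (h0 : ∀ z ∈ T, F z ≠ 0) :
    ∃ G : E → ℂ, ContinuousOn G T ∧ ∀ z ∈ T, exp (G z) = F z := by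
  classical
  let F' : C(T, {z : ℂ // z ≠ 0}) :=
    ⟨fun x => ⟨F x, h0 x x.2⟩, (hF.comp continuous_subtype_val).subtype_mk _⟩
  obtain ⟨y, ⟨H⟩⟩ := (id_nullhomotopic T).comp_right F'
  have H' := H.symm
  let G' := isCoveringMap_exp.liftHomotopy (H' : C(unitInterval × T, {z : ℂ // z ≠ 0}))
    (ContinuousMap.const T (log y)) (by
      intro a
      apply Subtype.ext
      simp [exp_log y.2])
  have hG' : ∀ x : T, exp (G' (1, x)) = F x := by
    intro x
    have := congrFun (isCoveringMap_exp.liftHomotopy_lifts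
      (H' : C(unitInterval × T, {z : ℂ // z ≠ 0})) (ContinuousMap.const T (log y)) (by
      intro a
      apply Subtype.ext
      simp [exp_log y.2])) (1, x)
    have h2 := congrArg Subtype.val this
    exact h2.trans (congrArg Subtype.val (H'.apply_one x))
  refine ⟨fun z => if h : z ∈ T then G' (1, ⟨z, h⟩) else 0, ?_, ?_⟩
  · rw [continuousOn_iff_continuous_domRestrict]
    have : (T.domRestrict fun z => if h : z ∈ T then G' (1, ⟨z, h⟩) else 0)
        = fun x : T => G' (1, x) := by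
      funext x
      exact dif_pos x.2
    rw [this]
    fun_prop
  · intro z hz
    simp only [hz, dif_pos]
    exact hG' ⟨z, hz⟩

lemma log_step {G : E → ℂ} (hF : Continuous F) (hG : ContinuousOn G T)
    (hGF : ∀ z ∈ T, exp (G z) = F z) {u : ℂ} {C : Set E} (hC : IsPreconnected C)
    (hCT : C ⊆ T) (hs : ∀ z ∈ C, u * F z ∈ slitPlane) {p q : E} (hp : p ∈ C) (hq : q ∈ C) :
    G p - log (u * F p) = G q - log (u * F q) := by
  have key : ∀ z ∈ C, exp (G z - log (u * F z)) = u⁻¹ := by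
    intro z hz
    have h1 := slitPlane_ne_zero (hs z hz)
    rw [exp_sub, exp_log h1, hGF z (hCT hz)]
    have h2 := mul_ne_zero_iff.1 h1
    field_simp [h2.1, h2.2]
  refine isCoveringMap_exp.constOn_of_comp (g := fun z => G z - log (u * F z)) hC ?_ ?_ hp hq
  · exact (hG.mono hCT).sub (ContinuousOn.clog (by fun_prop) hs)
  · intro a ha b hb
    apply Subtype.ext
    simp only [key a ha, key b hb]

end Log

/-- The scales. -/
noncomputable def h (k : ℕ) : ℝ := 1 / (4 * 16 ^ k)

lemma h_pos (k : ℕ) : 0 < h k := by unfold h; positivity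

lemma h_succ (k : ℕ) : h k = 16 * h (k + 1) := by
  unfold h; field_simp; ring

lemma h_anti {j k : ℕ} (hjk : j ≤ k) : h k ≤ h j := by
  unfold h
  gcongr
  norm_num

lemma h_sep (j k : ℕ) : j = k ∨ 16 * h j ≤ h k ∨ 16 * h k ≤ h j := by
  rcases lt_trichotomy j k with hjk | hjk | hjk
  · right; right
    rw [h_succ j]
    have := h_anti (Nat.succ_le_of_lt hjk)
    linarith
  · exact Or.inl hjk
  · right; left
    rw [h_succ k]
    have := h_anti (Nat.succ_le_of_lt hjk)
    linarith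

/-- The zero set of the first coordinate function. -/
def A1 : Set ℝ := {t | ∀ k, t ≤ h k ∨ 3 * h k ≤ t}

/-- The zero set of the second coordinate function. -/
def A2 : Set ℝ := {t | ∀ k, t ≤ 2 * h k ∨ 4 * h k ≤ t}

lemma mem_A1 {k : ℕ} {t : ℝ} (ht : t = h k ∨ (3 * h k ≤ t ∧ t ≤ 4 * h k)) : t ∈ A1 := by
  intro j
  have := h_pos j
  have := h_pos k
  rcases h_sep j k with rfl | h1 | h1 <;> rcases ht with h2 | ⟨h2, h3⟩
  · left; linarith
  · right; linarith
  · right; linarith
  · right; linarith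
  · left; linarith
  · left; linarith

lemma mem_A2 {k : ℕ} {t : ℝ} (ht : t = 4 * h k ∨ (h k ≤ t ∧ t ≤ 2 * h k)) : t ∈ A2 := by
  intro j
  have := h_pos j
  have := h_pos k
  rcases h_sep j k with rfl | h1 | h1 <;> rcases ht with h2 | ⟨h2, h3⟩
  · right; linarith
  · left; linarith
  · right; linarith
  · right; linarith
  · left; linarith
  · left; linarith

lemma infDist_A1 {k : ℕ} {t : ℝ} (h1 : 2 * h k ≤ t) (h2 : t ≤ 3 * h k) :
    Metric.infDist t A1 = 3 * h k - t := by
  have hm : 3 * h k ∈ A1 := mem_A1 (k := k) (Or.inr ⟨le_rfl, by linarith [h_pos k]⟩)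
  apply le_antisymm
  · refine (Metric.infDist_le_dist_of_mem hm).trans ?_
    rw [Real.dist_eq, abs_of_nonpos (by linarith)]
    linarith
  · refine (Metric.le_infDist ⟨_, hm⟩).2 fun y hy => ?_
    rw [Real.dist_eq]
    rcases hy k with h3 | h3
    · exact le_abs.2 (Or.inl (by linarith))
    · exact le_abs.2 (Or.inr (by linarith))

lemma infDist_A2 {k : ℕ} {t : ℝ} (h1 : 2 * h k ≤ t) (h2 : t ≤ 3 * h k) :
    Metric.infDist t A2 = t - 2 * h k := by
  have hm : 2 * h k ∈ A2 := mem_A2 (k := k) (Or.inr ⟨by linarith [h_pos k], le_rfl⟩)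
  apply le_antisymm
  · refine (Metric.infDist_le_dist_of_mem hm).trans ?_
    rw [Real.dist_eq, abs_of_nonneg (by linarith)]
  · refine (Metric.le_infDist ⟨_, hm⟩).2 fun y hy => ?_
    rw [Real.dist_eq]
    rcases hy k with h3 | h3
    · exact le_abs.2 (Or.inl (by linarith))
    · exact le_abs.2 (Or.inr (by linarith))

lemma trichotomy_A (t : ℝ) : t ∈ A1 ∨ t ∈ A2 ∨ ∃ j, 2 * h j ≤ t ∧ t ≤ 3 * h j := by
  by_cases h1 : t ∈ A1
  · exact Or.inl h1
  by_cases h2 : t ∈ A2
  · exact Or.inr (Or.inl h2)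
  right; right
  simp only [A1, A2, mem_ofPred_eq, not_forall, not_or, not_le] at h1 h2
  obtain ⟨j, h1, h1'⟩ := h1
  obtain ⟨k, h2, h2'⟩ := h2
  have := h_pos j
  have := h_pos k
  rcases h_sep j k with rfl | h3 | h3
  · exact ⟨j, h2.le, h1'.le⟩
  · linarith
  · linarith

/-- The arc. -/
noncomputable def γ (t : ℝ) : EuclideanSpace ℝ (Fin (2 + 1)) :=
  !₂[t, 256 * Metric.infDist t A1, 256 * Metric.infDist t A2]

lemma γ_zero (t : ℝ) : γ t 0 = t := rfl
lemma γ_one (t : ℝ) : γ t 1 = 256 * Metric.infDist t A1 := rfl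
lemma γ_two (t : ℝ) : γ t 2 = 256 * Metric.infDist t A2 := rfl

lemma dist_γ_sq (s t : ℝ) : dist (γ s) (γ t) ^ 2
    = (s - t) ^ 2 + (γ s 1 - γ t 1) ^ 2 + (γ s 2 - γ t 2) ^ 2 := by
  rw [EuclideanSpace.dist_sq_eq, Fin.sum_univ_three]
  simp only [Real.dist_eq, sq_abs, γ_zero]

lemma lipschitz_γ : LipschitzWith 513 γ := by
  refine LipschitzWith.of_dist_le_mul fun s t => ?_
  have h1 := (Metric.lipschitz_infDist_pt A1).dist_le_mul s t
  have h2 := (Metric.lipschitz_infDist_pt A2).dist_le_mul s t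
  simp only [NNReal.coe_one, one_mul, Real.dist_eq] at h1 h2
  have h3 := sq_le_sq.2 h1
  have h4 := sq_le_sq.2 h2
  refine abs_le_of_sq_le_sq' ?_ (by positivity) |>.2
  rw [dist_γ_sq, γ_one, γ_one, γ_two, γ_two, mul_pow, Real.dist_eq, sq_abs]
  push_cast
  nlinarith [sq_nonneg (s - t)]

/-- The grid sample. -/
noncomputable def sample (n : ℕ) : Finset (EuclideanSpace ℝ (Fin (2 + 1))) := by
  classical exact (Finset.range (n + 1)).image fun j : ℕ => γ (j / n)

lemma mem_sample {n j : ℕ} (hj : j ≤ n) : γ (j / n) ∈ sample n := by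
  classical
  exact Finset.mem_image.2 ⟨j, Finset.mem_range.2 (Nat.lt_succ_of_le hj), rfl⟩

lemma exists_of_mem_sample {n : ℕ} {p : EuclideanSpace ℝ (Fin (2 + 1))} (hp : p ∈ sample n) :
    ∃ j ≤ n, γ (j / n) = p := by
  classical
  obtain ⟨j, hj, rfl⟩ := Finset.mem_image.1 hp
  exact ⟨j, Nat.le_of_lt_succ (Finset.mem_range.1 hj), rfl⟩

lemma hausdorff_sample {n : ℕ} (hn : 0 < n) :
    Metric.hausdorffEDist (sample n : Set (EuclideanSpace ℝ (Fin (2 + 1)))) (γ '' Icc 0 1)
      ≤ ENNReal.ofReal (513 / n) := by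
  have hn' : (0 : ℝ) < n := by exact_mod_cast hn
  refine Metric.hausdorffEDist_le_of_mem_edist ?_ ?_
  · intro p hp
    obtain ⟨j, hj, rfl⟩ := exists_of_mem_sample hp
    refine ⟨_, ⟨j / n, ⟨by positivity, ?_⟩, rfl⟩, by simp⟩
    rw [div_le_one hn']
    exact_mod_cast hj
  · rintro _ ⟨t, ht, rfl⟩
    have h0 : 0 ≤ t * n := mul_nonneg ht.1 hn'.le
    refine ⟨_, mem_sample (j := ⌊t * n⌋₊) ?_, ?_⟩
    · apply Nat.floor_le_of_le
      nlinarith [ht.2]
    · rw [edist_dist]
      apply ENNReal.ofReal_le_ofReal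
      refine (lipschitz_γ.dist_le_mul _ _).trans ?_
      have h1 := Nat.floor_le h0
      have h2 := Nat.lt_floor_add_one (t * n)
      have h3 : t - (⌊t * n⌋₊ : ℝ) / n = (t * n - ⌊t * n⌋₊) / n := by field_simp
      rw [Real.dist_eq, h3, abs_of_nonneg (div_nonneg (by linarith) hn'.le)]
      push_cast
      rw [← mul_div_assoc]
      gcongr
      linarith

lemma segment_subset_shadow {N : ℕ} {β : ℝ} {S : Finset (EuclideanSpace ℝ (Fin N))}
    {p q : EuclideanSpace ℝ (Fin N)} (hp : p ∈ S) (hq : q ∈ S) (hpq : dist p q < β) :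
    segment ℝ p q ⊆ shadow β S := by
  classical
  intro z hz
  simp only [shadow, mem_iUnion]
  refine ⟨{p, q}, ?_, by simp, ?_, ?_⟩
  · intro x hx
    rcases Finset.mem_insert.1 hx with rfl | hx
    · exact hp
    · rw [Finset.mem_singleton.1 hx]; exact hq
  · rw [Finset.coe_pair, Metric.diam_pair]; exact hpq
  · rw [Finset.coe_pair, convexHull_pair]; exact hz

lemma exists_near_of_mem_shadow {N : ℕ} {β : ℝ} {S : Finset (EuclideanSpace ℝ (Fin N))}
    {z : EuclideanSpace ℝ (Fin N)} (hz : z ∈ shadow β S) : ∃ p ∈ S, dist z p < β := by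
  simp only [shadow, mem_iUnion] at hz
  obtain ⟨σ, hσ, ⟨p, hp⟩, hd, hz⟩ := hz
  refine ⟨p, hσ hp, ?_⟩
  have : convexHull ℝ (σ : Set (EuclideanSpace ℝ (Fin N))) ⊆ Metric.ball p β := by
    refine convexHull_min (fun x hx => ?_) (convex_ball p β)
    exact (Metric.dist_le_diam_of_mem σ.finite_toSet.isBounded hx hp).trans_lt hd
  exact this hz

/-- The projection to the plane, centred in the loop of scale `k`. -/
noncomputable def F (k : ℕ) (z : EuclideanSpace ℝ (Fin (2 + 1))) : ℂ :=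
  ((z 1 - 64 * h k : ℝ) : ℂ) + ((z 2 - 64 * h k : ℝ) : ℂ) * I

lemma F_re (k : ℕ) (z : EuclideanSpace ℝ (Fin (2 + 1))) : (F k z).re = z 1 - 64 * h k := by
  simp [F]

lemma F_im (k : ℕ) (z : EuclideanSpace ℝ (Fin (2 + 1))) : (F k z).im = z 2 - 64 * h k := by
  simp [F]

lemma continuous_F (k : ℕ) : Continuous (F k) := by
  unfold F
  fun_prop

lemma F_ne_zero {k : ℕ} {z : EuclideanSpace ℝ (Fin (2 + 1))} {t : ℝ}
    (hz : dist z (γ t) < 48 * h k) : F k z ≠ 0 := by
  intro h0
  have h1 := F_re k z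
  have h2 := F_im k z
  rw [h0] at h1 h2
  simp only [zero_re, zero_im] at h1 h2
  have h3 := (PiLp.dist_apply_le z (γ t) 1).trans_lt hz
  have h4 := (PiLp.dist_apply_le z (γ t) 2).trans_lt hz
  rw [Real.dist_eq, abs_lt] at h3 h4
  rw [γ_one] at h3
  rw [γ_two] at h4
  have := h_pos k
  rcases trichotomy_A t with ht | ht | ⟨j, ht, ht'⟩
  · rw [Metric.infDist_zero_of_mem ht] at h3
    linarith [h3.2]
  · rw [Metric.infDist_zero_of_mem ht] at h4
    linarith [h4.2]
  · rw [infDist_A1 ht ht'] at h3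
    rw [infDist_A2 ht ht'] at h4
    have := h_pos j
    rcases h_sep j k with rfl | h5 | h5 <;> linarith [h3.1, h3.2, h4.1, h4.2]

lemma chain_eq {α : Type} (D : ℕ → α) {a b : ℕ} (hab : a ≤ b)
    (hD : ∀ j, a ≤ j → j + 1 ≤ b → D j = D (j + 1)) : D a = D b := by
  induction b, hab using Nat.le_induction with
  | base => rfl
  | succ b hab ih => rw [ih fun j h1 h2 => hD j h1 (by omega), hD b hab le_rfl]

lemma convex_coord (a b c : ℝ) :
    Convex ℝ {z : EuclideanSpace ℝ (Fin (2 + 1)) | a * z 1 + b * z 2 = c} := by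
  intro x hx y hy s t _ _ hst
  simp only [mem_ofPred_eq, PiLp.add_apply, PiLp.smul_apply, smul_eq_mul] at hx hy ⊢
  linear_combination s * hx + t * hy + c * hst

lemma not_contractible {k m : ℕ} {β : ℝ} (hβ1 : 3 * h k < β) (hβ2 : β ≤ 48 * h k)
    (hm : 513 / ((4 * 16 ^ k * m : ℕ) : ℝ) < β) (hm0 : 0 < m) :
    ¬ ContractibleSpace (shadow β (sample (4 * 16 ^ k * m))) := by
  intro hc
  set n := 4 * 16 ^ k * m with hn
  have hk := h_pos k
  have hn0 : (0 : ℝ) < n := by
    rw [hn]; positivity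
  have hmn : (m : ℝ) = h k * n := by
    rw [hn, h]; push_cast; field_simp
  have h4 : 4 * m ≤ n := by
    rw [hn]
    have : 1 ≤ 16 ^ k := Nat.one_le_pow _ _ (by norm_num)
    nlinarith
  obtain ⟨G, hG, hGF⟩ := exists_log (T := shadow β (sample n)) (continuous_F k) (by
    intro z hz
    obtain ⟨p, hp, hzp⟩ := exists_near_of_mem_shadow hz
    obtain ⟨j, -, rfl⟩ := exists_of_mem_sample hp
    exact F_ne_zero (hzp.trans_le hβ2))
  have hle : ∀ (i j : ℕ), i * m ≤ j → i * h k ≤ (j : ℝ) / n := by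
    intro i j hj
    rw [le_div_iff₀ hn0, mul_assoc, ← hmn]
    exact_mod_cast hj
  have hge : ∀ (i j : ℕ), j ≤ i * m → (j : ℝ) / n ≤ i * h k := by
    intro i j hj
    rw [div_le_iff₀ hn0, mul_assoc, ← hmn]
    exact_mod_cast hj
  have heq : ∀ i : ℕ, ((i * m : ℕ) : ℝ) / n = i * h k := fun i =>
    le_antisymm (hge i _ le_rfl) (hle i _ le_rfl)
  have hadj : ∀ j : ℕ, dist (γ (j / n)) (γ ((j + 1 : ℕ) / n)) < β := by
    intro j
    refine (lipschitz_γ.dist_le_mul _ _).trans_lt (lt_of_le_of_lt (le_of_eq ?_) hm)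
    have : (j : ℝ) / n - ((j + 1 : ℕ) : ℝ) / n = -(1 / n) := by push_cast; ring
    rw [Real.dist_eq, this, abs_neg, abs_of_pos (by positivity)]
    push_cast
    ring
  have side : ∀ (u : ℂ) (a b c : ℝ) (i : ℕ), i + 1 ≤ 4 →
      (∀ z : EuclideanSpace ℝ (Fin (2 + 1)), a * z 1 + b * z 2 = c → u * F k z ∈ slitPlane) →
      (∀ t, i * h k ≤ t → t ≤ (i + 1 : ℕ) * h k → a * γ t 1 + b * γ t 2 = c) →
      G (γ (i * h k)) - log (u * F k (γ (i * h k)))
        = G (γ ((i + 1 : ℕ) * h k)) - log (u * F k (γ ((i + 1 : ℕ) * h k))) := by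
    intro u a b c i hi hs ht
    rw [← heq, ← heq]
    refine chain_eq (fun j : ℕ => G (γ (j / n)) - log (u * F k (γ (j / n))))
      (Nat.mul_le_mul_right m (Nat.le_succ i)) fun j h1 h2 => ?_
    have h3 : (i + 1) * m ≤ n := (Nat.mul_le_mul_right m hi).trans h4
    refine log_step (continuous_F k) hG hGF (convex_segment _ _).isPreconnected
      (segment_subset_shadow (mem_sample (by omega)) (mem_sample (by omega)) (hadj j)) ?_
      (left_mem_segment _ _ _) (right_mem_segment _ _ _)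
    intro z hz
    refine hs z ((convex_coord a b c).segment_subset ?_ ?_ hz)
    · exact ht _ (hle _ _ h1) (hge _ _ (by omega))
    · exact ht _ (hle _ _ (by omega)) (hge _ _ h2)
  have s1 := side I 0 1 0 1 (by norm_num)
    (by
      intro z hz
      left
      simp only [mul_re, I_re, I_im, F_re, F_im]
      linarith)
    (by
      intro t h1 h2
      push_cast at h1 h2
      rw [γ_two, Metric.infDist_zero_of_mem (mem_A2 (k := k) (Or.inr ⟨by linarith, h2⟩))]
      ring)
  have s2 := side 1 1 1 (256 * h k) 2 (by norm_num)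
    (by
      intro z hz
      rw [one_mul, mem_slitPlane_iff, F_re, F_im]
      by_contra hcon
      push Not at hcon
      linarith [hcon.1, hcon.2])
    (by
      intro t h1 h2
      push_cast at h1 h2
      rw [γ_one, γ_two, infDist_A1 h1 h2, infDist_A2 h1 h2]
      ring)
  have s3 := side (-1) 1 0 0 3 (by norm_num)
    (by
      intro z hz
      left
      simp only [neg_mul, one_mul, neg_re, F_re]
      linarith)
    (by
      intro t h1 h2
      push_cast at h1 h2
      rw [γ_one, Metric.infDist_zero_of_mem (mem_A1 (k := k) (Or.inr ⟨h1, h2⟩))]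
      ring)
  norm_num only [Nat.cast_ofNat, Nat.cast_one, one_mul] at s1 s2 s3
  have a11 : γ (h k) 1 = 0 := by
    rw [γ_one, Metric.infDist_zero_of_mem (mem_A1 (k := k) (Or.inl rfl)), mul_zero]
  have a12 : γ (h k) 2 = 0 := by
    rw [γ_two, Metric.infDist_zero_of_mem (mem_A2 (k := k) (Or.inr ⟨le_rfl, by linarith⟩)),
      mul_zero]
  have a21 : γ (2 * h k) 1 = 256 * h k := by
    rw [γ_one, infDist_A1 (k := k) le_rfl (by linarith)]; ring
  have a22 : γ (2 * h k) 2 = 0 := by
    rw [γ_two, infDist_A2 (k := k) le_rfl (by linarith)]; ring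
  have a32 : γ (3 * h k) 2 = 256 * h k := by
    rw [γ_two, infDist_A2 (k := k) (by linarith) le_rfl]; ring
  have a41 : γ (4 * h k) 1 = 0 := by
    rw [γ_one, Metric.infDist_zero_of_mem (mem_A1 (k := k) (Or.inr ⟨by linarith, le_rfl⟩)),
      mul_zero]
  have a42 : γ (4 * h k) 2 = 0 := by
    rw [γ_two, Metric.infDist_zero_of_mem (mem_A2 (k := k) (Or.inl rfl)), mul_zero]
  have s4 : G (γ (4 * h k)) - log (I * F k (γ (4 * h k)))
      = G (γ (h k)) - log (I * F k (γ (h k))) := by
    have m4 : γ (4 * h k) ∈ sample n := by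
      have := mem_sample (n := n) (j := 4 * m) h4
      rwa [heq 4] at this
    have m1 : γ (h k) ∈ sample n := by
      have := mem_sample (n := n) (j := 1 * m) (by omega)
      rwa [heq 1, Nat.cast_one, one_mul] at this
    refine log_step (continuous_F k) hG hGF (convex_segment _ _).isPreconnected
      (segment_subset_shadow m4 m1 ?_) ?_ (left_mem_segment _ _ _) (right_mem_segment _ _ _)
    · refine lt_of_le_of_lt (abs_le_of_sq_le_sq' (le_of_eq ?_) (by positivity)).2 hβ1
      rw [dist_γ_sq, a11, a12, a41, a42]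
      ring
    · intro z hz
      have : 0 * z 1 + 1 * z 2 = 0 :=
        (convex_coord 0 1 0).segment_subset (by simp [a42]) (by simp [a12]) hz
      left
      simp only [mul_re, I_re, I_im, F_re, F_im]
      linarith
  have e1 := congrArg Complex.im s1
  have e2 := congrArg Complex.im s2
  have e3 := congrArg Complex.im s3
  have e4 := congrArg Complex.im s4
  simp only [sub_im, log_im] at e1 e2 e3 e4
  have p1 : 0 ≤ arg (I * F k (γ (2 * h k))) := by
    rw [arg_nonneg_iff]
    simp only [mul_im, I_re, I_im, F_re, F_im, a21]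
    linarith
  have p2 : arg (I * F k (γ (4 * h k))) < 0 := by
    rw [arg_neg_iff]
    simp only [mul_im, I_re, I_im, F_re, F_im, a41]
    linarith
  have p3 : 0 ≤ arg (F k (γ (3 * h k))) := by
    rw [arg_nonneg_iff, F_im, a32]
    linarith
  have p4 : arg (F k (γ (2 * h k))) < 0 := by
    rw [arg_neg_iff, F_im, a22]
    linarith
  have p5 : 0 ≤ arg (-1 * F k (γ (4 * h k))) := by
    rw [arg_nonneg_iff]
    simp only [neg_mul, one_mul, neg_im, F_im, a42]
    linarith
  have p6 : arg (-1 * F k (γ (3 * h k))) < 0 := by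
    rw [arg_neg_iff]
    simp only [neg_mul, one_mul, neg_im, F_im, a32]
    linarith
  linarith

lemma exists_scale {β : ℝ} (h0 : 0 < β) (h1 : β < 1) : ∃ k, 3 * h k < β ∧ β ≤ 48 * h k := by
  classical
  have hex : ∃ k, 3 * h k < β := by
    obtain ⟨k, hk⟩ := pow_unbounded_of_one_lt (1 / β) (show (1 : ℝ) < 16 by norm_num)
    refine ⟨k, ?_⟩
    rw [div_lt_iff₀ h0] at hk
    rw [h, mul_one_div, div_lt_iff₀ (by positivity)]
    nlinarith
  refine ⟨Nat.find hex, Nat.find_spec hex, ?_⟩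
  rcases Nat.eq_zero_or_pos (Nat.find hex) with h2 | h2
  · rw [h2, h]
    norm_num
    linarith
  · have := Nat.find_min hex (m := Nat.find hex - 1) (by omega)
    rw [h_succ, Nat.sub_add_cancel h2] at this
    linarith

theorem main {β η : ℝ} (h0 : 0 < β) (h1 : β < 1) (hη : 0 < η) :
    ∃ S : Finset (EuclideanSpace ℝ (Fin (2 + 1))),
      Metric.hausdorffEDist (S : Set (EuclideanSpace ℝ (Fin (2 + 1)))) (γ '' Icc 0 1)
        < ENNReal.ofReal η ∧ IsEmpty (ContinuousMap.HomotopyEquiv (shadow β S) (γ '' Icc 0 1)) := by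
  obtain ⟨k, hk1, hk2⟩ := exists_scale h0 h1
  obtain ⟨m, hm⟩ := exists_nat_gt (513 / min β η)
  have hmin : 0 < min β η := lt_min h0 hη
  have hm0 : 0 < m := by
    have : (0 : ℝ) < m := lt_trans (by positivity) hm
    exact_mod_cast this
  have hle : m ≤ 4 * 16 ^ k * m := Nat.le_mul_of_pos_left _ (by positivity)
  have hlt : 513 / ((4 * 16 ^ k * m : ℕ) : ℝ) < min β η := by
    have h2 : (m : ℝ) ≤ ((4 * 16 ^ k * m : ℕ) : ℝ) := by exact_mod_cast hle
    rw [div_lt_iff₀ hmin] at hm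
    rw [div_lt_iff₀ (by positivity)]
    nlinarith
  refine ⟨sample (4 * 16 ^ k * m), (hausdorff_sample (by positivity)).trans_lt ?_, ⟨fun e => ?_⟩⟩
  · exact (ENNReal.ofReal_lt_ofReal_iff hη).2 (hlt.trans_le (min_le_right _ _))
  · have := contractible_graph lipschitz_γ γ_zero
    exact not_contractible hk1 hk2 (hlt.trans_le (min_le_left _ _)) hm0 e.contractibleSpace

end Pool.Agent.Work.MP_320b68_gt
end

-- merged part: Pool.Agent.Work.MP_320b68_gt.MainOn
section
/-!
The samples of the arc lie on the arc.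
-/

namespace Pool.Agent.Work.MP_320b68_gt

open Set

lemma sample_subset {n : ℕ} (hn : 0 < n) :
    (sample n : Set (EuclideanSpace ℝ (Fin (2 + 1)))) ⊆ γ '' Icc 0 1 := by
  intro p hp
  have hn' : (0 : ℝ) < n := by exact_mod_cast hn
  obtain ⟨j, hj, rfl⟩ := exists_of_mem_sample hp
  refine ⟨j / n, ⟨by positivity, ?_⟩, rfl⟩
  rw [div_le_one hn']
  exact_mod_cast hj

theorem main_on {β η : ℝ} (h0 : 0 < β) (h1 : β < 1) (hη : 0 < η) :
    ∃ S : Finset (EuclideanSpace ℝ (Fin (2 + 1))),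
      (S : Set (EuclideanSpace ℝ (Fin (2 + 1)))) ⊆ γ '' Icc 0 1 ∧
      Metric.hausdorffEDist (S : Set (EuclideanSpace ℝ (Fin (2 + 1)))) (γ '' Icc 0 1)
        < ENNReal.ofReal η ∧ IsEmpty (ContinuousMap.HomotopyEquiv (shadow β S) (γ '' Icc 0 1)) := by
  obtain ⟨k, hk1, hk2⟩ := exists_scale h0 h1
  obtain ⟨m, hm⟩ := exists_nat_gt (513 / min β η)
  have hmin : 0 < min β η := lt_min h0 hη
  have hm0 : 0 < m := by
    have : (0 : ℝ) < m := lt_trans (by positivity) hm
    exact_mod_cast this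
  have hle : m ≤ 4 * 16 ^ k * m := Nat.le_mul_of_pos_left _ (by positivity)
  have hlt : 513 / ((4 * 16 ^ k * m : ℕ) : ℝ) < min β η := by
    have h2 : (m : ℝ) ≤ ((4 * 16 ^ k * m : ℕ) : ℝ) := by exact_mod_cast hle
    rw [div_lt_iff₀ hmin] at hm
    rw [div_lt_iff₀ (by positivity)]
    nlinarith
  refine ⟨sample (4 * 16 ^ k * m), sample_subset (by positivity),
    (hausdorff_sample (by positivity)).trans_lt ?_, ⟨fun e => ?_⟩⟩
  · exact (ENNReal.ofReal_lt_ofReal_iff hη).2 (hlt.trans_le (min_le_right _ _))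
  · have := contractible_graph lipschitz_γ γ_zero
    exact not_contractible hk1 hk2 (hlt.trans_le (min_le_left _ _)) hm0 e.contractibleSpace

end Pool.Agent.Work.MP_320b68_gt
end
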