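import Pool.Agent.Work.MP_320b68_gt.CircMain

/-!
Tools for the stability of the extra loop under small moves of the sample.
-/

namespace Pool.Agent.Work.MP_320b68_gt.Circ

open scoped ENNReal Topology NNReal RealInnerProductSpace
open Set Complex Metric Filter

theorem rb_ev {x y : ℝ} (k : ℝ) (h : x < y) : ∀ᶠ ρ in 𝓝[>] (0 : ℝ), x + k * ρ < y := by
  have h1 : Tendsto (fun ρ : ℝ => x + k * ρ) (𝓝 0) (𝓝 (x + k * 0)) :=
    (continuous_const.add (continuous_const.mul continuous_id)).tendsto 0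
  rw [mul_zero, add_zero] at h1
  exact (h1.eventually_lt_const h).filter_mono nhdsWithin_le_nhds

theorem rb_thick {K L O : Set E} (hK : IsCompact K) (hL : IsCompact L) (hO : IsOpen O)
    (h : K ∩ L ⊆ O) : ∀ᶠ ρ in 𝓝[>] (0 : ℝ), cthickening ρ K ∩ cthickening ρ L ⊆ O := by
  obtain ⟨δ, hδ, h1⟩ := (hK.inter hL).exists_cthickening_subset_open hO h
  have h2 : Disjoint (K \ thickening (δ / 2) (K ∩ L)) L :=
    disjoint_left.2 fun y hy hy' => hy.2 (self_subset_thickening (half_pos hδ) _ ⟨hy.1, hy'⟩)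
  obtain ⟨ε, hε, h3⟩ := h2.exists_cthickenings (hK.diff isOpen_thickening) hL.isClosed
  filter_upwards [rb_ev 2 hδ, rb_ev 1 hε, self_mem_nhdsWithin] with ρ a1 a2 a3 x hx
  have a4 : (0 : ℝ) < ρ := a3
  obtain ⟨hx1, hx2⟩ := hx
  rw [hK.cthickening_eq_biUnion_closedBall a4.le] at hx1
  simp only [mem_iUnion, mem_closedBall] at hx1
  obtain ⟨y, hy, hxy⟩ := hx1
  by_cases h4 : y ∈ thickening (δ / 2) (K ∩ L)
  · obtain ⟨z, hz, hyz⟩ := mem_thickening_iff.1 h4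
    exact h1 (mem_cthickening_of_dist_le x z δ _ hz (by linarith [dist_triangle x y z]))
  · exact (disjoint_left.1 h3 (mem_cthickening_of_dist_le x y ε _ ⟨hy, h4⟩ (by linarith))
      (cthickening_mono (by linarith) _ hx2)).elim

theorem rb_hull {s s' : Set E} {ρ : ℝ} (h : ∀ p' ∈ s', ∃ p ∈ s, ‖p' - p‖ ≤ ρ) :
    convexHull ℝ s' ⊆ cthickening ρ (convexHull ℝ s) := by
  refine convexHull_min (fun p' hp' => ?_) ((convex_convexHull ℝ s).cthickening ρ)
  obtain ⟨p, hp, h1⟩ := h p' hp'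
  exact mem_cthickening_of_dist_le p' p ρ _ (subset_convexHull ℝ s hp) (by rwa [dist_eq_norm])

theorem rb_eq {ι : Type} (T T' : Finset ι) (x w : ι → ℝ) (hw : ∀ i, 0 < w i)
    (h1 : ∑ i ∈ T, w i = ∑ j ∈ T', w j) (h2 : ∑ i ∈ T, w i * x i = ∑ j ∈ T', w j * x j)
    (h : ∀ i ∈ T, ∀ j ∈ T', x j ≤ x i) : ∀ i ∈ T, ∀ j ∈ T', x i = x j := by
  have h0 : ∀ i ∈ T, ∀ j ∈ T', 0 ≤ w i * w j * (x i - x j) := fun i hi j hj =>
    mul_nonneg (mul_pos (hw i) (hw j)).le (sub_nonneg.2 (h i hi j hj))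
  have h3 : ∑ i ∈ T, ∑ j ∈ T', w i * w j * (x i - x j) = 0 := by
    have e : ∀ i, ∑ j ∈ T', w i * w j * (x i - x j) =
        w i * x i * ∑ j ∈ T', w j - w i * ∑ j ∈ T', w j * x j := fun i => by
      rw [Finset.mul_sum, Finset.mul_sum, ← Finset.sum_sub_distrib]
      exact Finset.sum_congr rfl fun j _ => by ring
    simp only [e]
    rw [Finset.sum_sub_distrib, ← Finset.sum_mul, ← Finset.sum_mul, h1, h2]
    ring
  intro i hi j hj
  have h4 := (Finset.sum_eq_zero_iff_of_nonneg (h0 i hi)).1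
    ((Finset.sum_eq_zero_iff_of_nonneg fun i hi => Finset.sum_nonneg (h0 i hi)).1 h3 i hi) j hj
  exact sub_eq_zero.1 ((mul_eq_zero.1 h4).resolve_left (mul_pos (hw i) (hw j)).ne')

theorem rb_cross {ι : Type} (T T' : Finset ι) (W : ι → E) {i0 j0 : ι} (hi0 : i0 ∈ T)
    (hj0 : j0 ∈ T') (h : ∀ y : E, (∀ i ∈ T, ∀ j ∈ T', ⟪y, W j⟫ ≤ ⟪y, W i⟫) → y = 0) :
    ∀ᶠ ρ in 𝓝[>] (0 : ℝ), ∀ W' : ι → E, (∀ i, ‖W' i - W i‖ ≤ ρ) →
      (convexHull ℝ (W' '' T) ∩ convexHull ℝ (W' '' T')).Nonempty := by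
  let G : E → ℝ := fun y => ∑ i ∈ T, ∑ j ∈ T', max (⟪y, W j⟫ - ⟪y, W i⟫) 0
  have hG : Continuous G := by
    simp only [G]
    fun_prop
  obtain ⟨y0, hy0, hmin⟩ := (isCompact_sphere (0 : E) 1).exists_isMinOn
    (NormedSpace.sphere_nonempty.2 zero_le_one) hG.continuousOn
  have h0 : ∀ (y : E), ∀ i ∈ T, ∀ j ∈ T', 0 ≤ max (⟪y, W j⟫ - ⟪y, W i⟫) 0 :=
    fun y i _ j _ => le_max_right _ _
  have hpos : 0 < G y0 := by
    refine lt_of_le_of_ne (Finset.sum_nonneg fun i hi => Finset.sum_nonneg (h0 y0 i hi)) fun e => ?_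
    have h1 : y0 = 0 := h y0 fun i hi j hj => by
      have h4 := (Finset.sum_eq_zero_iff_of_nonneg (h0 y0 i hi)).1
        ((Finset.sum_eq_zero_iff_of_nonneg fun i hi => Finset.sum_nonneg (h0 y0 i hi)).1
          e.symm i hi) j hj
      linarith [le_max_left (⟪y0, W j⟫ - ⟪y0, W i⟫) 0]
    simp [h1] at hy0
  filter_upwards [rb_ev (T.card * (T'.card * 2)) hpos, self_mem_nhdsWithin] with ρ a1 a2 W' hW'
  have a3 : (0 : ℝ) < ρ := a2
  by_contra hne
  obtain ⟨f, p, q, f1, f2, f3⟩ := geometric_hahn_banach_compact_closed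
    (convex_convexHull ℝ (W' '' T')) ((T'.finite_toSet.image W').isCompact_convexHull ℝ)
    (convex_convexHull ℝ (W' '' T)) ((T.finite_toSet.image W').isClosed_convexHull ℝ)
    (disjoint_left.2 fun x hx hx' => hne ⟨x, hx', hx⟩)
  set y := (InnerProductSpace.toDual ℝ E).symm f with hy
  have hlt : ∀ i ∈ T, ∀ j ∈ T', ⟪y, W' j⟫ < ⟪y, W' i⟫ := fun i hi j hj => by
    rw [hy, InnerProductSpace.toDual_symm_apply, InnerProductSpace.toDual_symm_apply]
    exact ((f1 _ (subset_convexHull ℝ _ ⟨j, hj, rfl⟩)).trans f2).trans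
      (f3 _ (subset_convexHull ℝ _ ⟨i, hi, rfl⟩))
  have hy0' : y ≠ 0 := fun e => by simpa [e] using hlt i0 hi0 j0 hj0
  have hn : 0 < ‖y‖ := norm_pos_iff.2 hy0'
  have hy1 : ‖‖y‖⁻¹ • y‖ = 1 := by
    rw [norm_smul, norm_inv, norm_norm, inv_mul_cancel₀ hn.ne']
  have h5 : G y0 ≤ G (‖y‖⁻¹ • y) := hmin (mem_sphere_zero_iff_norm.2 hy1)
  have h6 : ∀ k, |⟪‖y‖⁻¹ • y, W' k⟫ - ⟪‖y‖⁻¹ • y, W k⟫| ≤ ρ := fun k => by
    rw [← inner_sub_right]
    refine (abs_real_inner_le_norm _ _).trans ?_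
    rw [hy1, one_mul]
    exact hW' k
  have h7 : G (‖y‖⁻¹ • y) ≤ ∑ _i ∈ T, ∑ _j ∈ T', 2 * ρ := by
    refine Finset.sum_le_sum fun i hi => Finset.sum_le_sum fun j hj => max_le ?_ (by linarith)
    have h8 : ⟪‖y‖⁻¹ • y, W' j⟫ ≤ ⟪‖y‖⁻¹ • y, W' i⟫ := by
      rw [real_inner_smul_left, real_inner_smul_left]
      exact mul_le_mul_of_nonneg_left (hlt i hi j hj).le (inv_nonneg.2 hn.le)
    linarith [abs_le.1 (h6 i), abs_le.1 (h6 j)]
  simp only [Finset.sum_const, nsmul_eq_mul] at h7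
  linarith

/-- A branch of the logarithm of the first two coordinates near the angle `a`. -/
noncomputable def lg (a : ℝ) (x : E) : ℂ := log (θ x * exp (-(a * I))) + a * I

theorem rb_near {a : ℝ} {x : E} (h : ‖x - cir a‖ < 1) :
    ∃ z : ℂ, ‖z‖ < 1 ∧ θ x * exp (-(a * I)) = 1 + z := by
  refine ⟨(θ x - θ (cir a)) * exp (-(a * I)), ?_, ?_⟩
  · rw [norm_mul, norm_exp, neg_re, re_ofReal_mul, I_re, mul_zero, neg_zero, Real.exp_zero,
      mul_one]
    exact (norm_θ_sub x (cir a)).trans_lt h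
  · rw [θ_cir, sub_mul, ← exp_add]
    simp

theorem rb_slit {a : ℝ} {x : E} (h : ‖x - cir a‖ < 1) : θ x * exp (-(a * I)) ∈ slitPlane := by
  obtain ⟨z, h1, h2⟩ := rb_near h
  rw [h2]
  exact mem_slitPlane_of_norm_lt_one h1

theorem rb_exp {a : ℝ} {x : E} (h : ‖x - cir a‖ < 1) : exp (lg a x) = θ x := by
  rw [lg, exp_add, exp_log (slitPlane_ne_zero (rb_slit h)), mul_assoc, ← exp_add, neg_add_cancel,
    exp_zero, mul_one]

theorem rb_im {a : ℝ} {x : E} (h : ‖x - cir a‖ < 1) : |(lg a x).im - a| < Real.pi / 2 := by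
  obtain ⟨z, h1, h2⟩ := rb_near h
  have e : (lg a x).im - a = arg (1 + z) := by
    rw [lg, h2, add_im, log_im]
    simp
  rw [e, abs_arg_lt_pi_div_two_iff, add_re, one_re, ← neg_lt_iff_pos_add']
  exact Or.inl (abs_lt.1 ((abs_re_le_norm z).trans_lt h1)).1

theorem rb_log {a b : ℝ} {x : E} (ha : ‖x - cir a‖ < 1) (hb : ‖x - cir b‖ < 1)
    (hab : |b - a| < 1) : lg a x = lg b x := by
  obtain ⟨k, hk⟩ := exp_eq_exp_iff_exists_int.1 ((rb_exp ha).trans (rb_exp hb).symm)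
  have h1 : (lg a x).im = (lg b x).im + k * (2 * Real.pi) := by
    rw [hk]
    simp
  have h2 := abs_lt.1 (rb_im ha)
  have h3 := abs_lt.1 (rb_im hb)
  have h4 := abs_lt.1 hab
  have hπ := Real.pi_gt_three
  have h5 : (k : ℝ) < 1 := by nlinarith
  have h6 : (-1 : ℝ) < k := by nlinarith
  have h7 : k < 1 := by exact_mod_cast h5
  have h8 : -1 < k := by exact_mod_cast h6
  have h9 : k = 0 := by omega
  simpa [h9] using hk

theorem rb_step {C : Set E} (hC : IsPreconnected C) {Φ : E → ℂ} (hΦ : ContinuousOn Φ C) {n : ℤ}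
    (h : ∀ x ∈ C, exp (Φ x) = θ x ^ n) {a : ℝ} (hn : ∀ x ∈ C, ‖x - cir a‖ < 1) {p q : E}
    (hp : p ∈ C) (hq : q ∈ C) : Φ p - n * lg a p = Φ q - n * lg a q :=
  const_of_exp (D := fun x => Φ x - n * lg a x) hC
    (hΦ.sub (continuousOn_const.mul (((continuous_θ.mul continuous_const).continuousOn.clog
      fun x hx => rb_slit (hn x hx)).add continuousOn_const))) (fun x hx => by
      rw [exp_sub, h x hx, exp_int_mul, rb_exp (hn x hx), div_self (zpow_ne_zero _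
        (left_ne_zero_of_mul (slitPlane_ne_zero (rb_slit (hn x hx)))))]) hp hq

theorem rb_turn (a : ℝ) (x : E) : lg (a + 2 * Real.pi) x = lg a x + 2 * Real.pi * I := by
  have e : exp (-(((a + 2 * Real.pi : ℝ) : ℂ) * I)) = exp (-(a * I)) := by
    rw [exp_eq_exp_iff_exists_int]
    exact ⟨-1, by push_cast; ring⟩
  rw [lg, lg, e]
  push_cast
  ring

/-- The clamp that vanishes below one third and is one above two thirds. -/
noncomputable def clamp (t : ℝ) : ℝ := max 0 (min 1 (3 * t - 1))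

theorem continuous_clamp : Continuous clamp := by
  unfold clamp
  fun_prop

theorem clamp_lo {t : ℝ} (h : t < 1 / 3) : clamp t = 0 :=
  max_eq_left ((min_le_right _ _).trans (by linarith))

theorem clamp_hi {t : ℝ} (h : 2 / 3 < t) : clamp t = 1 := by
  rw [clamp, min_eq_left (by linarith), max_eq_right zero_le_one]

theorem rb_grid {δ : ℝ} (hmin : 0 < δ) : ∃ (N : ℕ) (φ : ℕ → ℝ), φ N = φ 0 + 2 * Real.pi ∧
    (∀ j, |φ (j + 1) - φ j| < δ) ∧ (∀ j, 0 < |cir (φ j) 1|) ∧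
      ∀ p ∈ M, ∃ j ≤ N, ‖p - cir (φ j)‖ ≤ δ := by
  have hπ := Real.pi_pos
  obtain ⟨n, hn⟩ := exists_nat_gt (Real.pi / δ)
  have hn0 : (0 : ℝ) < n := lt_trans (by positivity) hn
  have hd : Real.pi / n < δ := by
    rw [div_lt_iff₀ hmin] at hn
    rw [div_lt_iff₀ hn0]
    linarith only [hn]
  set d := Real.pi / n with hd'
  have hd0 : 0 < d := by positivity
  have hdn : d * n = Real.pi := div_mul_cancel₀ _ hn0.ne'
  refine ⟨2 * n, fun j => (j + 1 / 2) * d, ?_, fun j => ?_, fun j => ?_, fun p hp => ?_⟩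
  · push_cast
    linarith only [hdn]
  · have : (((j + 1 : ℕ) : ℝ) + 1 / 2) * d - (j + 1 / 2) * d = d := by
      push_cast
      ring
    rw [this, abs_of_pos hd0]
    exact hd
  · rw [abs_pos, cir_one]
    intro h
    obtain ⟨k, hk⟩ := Real.sin_eq_zero_iff.1 h
    have h2 : (2 * (k * n) : ℝ) = 2 * j + 1 := by
      refine mul_right_cancel₀ hd0.ne' ?_
      rw [← hdn] at hk
      linarith only [hk]
    have h3 : (2 * (k * n) : ℤ) = 2 * j + 1 := by exact_mod_cast h2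
    omega
  · obtain ⟨t, ht, ht', rfl⟩ : ∃ t, 0 ≤ t ∧ t ≤ 2 * Real.pi ∧ cir t = p := by
      rcases le_total 0 (arg (θ p)) with h | h
      · exact ⟨_, h, by linarith only [hπ, arg_le_pi (θ p)], cir_arg hp⟩
      · exact ⟨_, by linarith only [hπ, neg_pi_lt_arg (θ p)], by linarith only [h],
          (cir_add _).trans (cir_arg hp)⟩
    refine ⟨⌊t / d⌋₊, Nat.floor_le_of_le ?_, (norm_cir_le _ _).trans ?_⟩
    · rw [div_le_iff₀ hd0]
      push_cast
      linarith only [hdn, ht']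
    · have h2 := (le_div_iff₀ hd0).1 (Nat.floor_le (div_nonneg ht hd0.le))
      have h3 := (div_lt_iff₀ hd0).1 (Nat.lt_floor_add_one (t / d))
      exact abs_le.2 ⟨by linarith only [hd0, h2, hd], by linarith only [hd0, h3, hd]⟩

end Pool.Agent.Work.MP_320b68_gt.Circ
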