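import Pool.Agent.Work.MP_320b68_gt.Rob1

/-!
The extra loop survives small moves of the sample as long as the two hulls still meet.
-/

namespace Pool.Agent.Work.MP_320b68_gt.Circ

open scoped ENNReal Topology NNReal
open Set Complex Metric Filter

variable {b κ ε r c s : ℝ}

theorem rb_not_equiv (h : Par b κ ε r c s) {β : ℝ} (hβ : 0 < β) (hβb : β < b) {N : ℕ} {φ : ℕ → ℝ}
    (h1 : φ N = φ 0 + 2 * Real.pi) (h2 : ∀ j, |φ (j + 1) - φ j| < β) (S : Finset E)
    (hS : ∀ p ∈ S, (p ∈ M ∧ κ ≤ |p 1|) ∨ ∃ k, v ε r c s k = p) (hcS : ∀ j ≤ N, cir (φ j) ∈ S)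
    (U : Fin 11 → E) (hUS : ∀ k, U k ∈ S) (hU : ∀ k : Fin 7, U (k.castAdd 4) = v ε r c s k)
    (T1 T2 T3 : Finset (Fin 11)) (t1 : ∀ k : Fin 7, k ≤ 2 → k.castAdd 4 ∈ T1)
    (t2 : ∀ k : Fin 7, 3 ≤ k → k.castAdd 4 ∈ T2) (t3 : T3 = {1, 3})
    (a1 : ∀ i ∈ T1, ∀ j ∈ T1, ‖U i - U j‖ < β) (a2 : ∀ i ∈ T2, ∀ j ∈ T2, ‖U i - U j‖ < β)
    (a3 : ∀ i ∈ T3, ∀ j ∈ T3, ‖U i - U j‖ < β) :
    ∀ᶠ ρ in 𝓝[>] (0 : ℝ), ∀ S' : Finset E, (∀ p' ∈ S', ∃ p ∈ S, ‖p' - p‖ ≤ ρ) →
      (∀ p ∈ S, ∃ p' ∈ S', ‖p' - p‖ ≤ ρ) → ∀ U' : Fin 11 → E, (∀ k, U' k ∈ S') →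
      (∀ k, ‖U' k - U k‖ ≤ ρ) →
      (convexHull ℝ (U' '' T1) ∩ convexHull ℝ (U' '' T2)).Nonempty →
      IsEmpty (ContinuousMap.HomotopyEquiv (shadow β S') M) := by
  classical
  obtain ⟨hb, hr, -⟩ := h.facts
  have hε := h.ε0
  have hc := continuous_dep ε r
  let K1 := convexHull ℝ ((S.filter fun p => ‖p - v ε r c s 2‖ < b ∧ ‖p - v ε r c s 0‖ < b ∧
    ‖p - v ε r c s 1‖ < b : Finset E) : Set E)
  have hX1 : K1 ⊆ Rep κ ε r s 1 fun k => 3 ≤ k := by
    refine hull_subset_Rep (c := c) fun p hp => ?_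
    obtain ⟨hp, k2, k0, k1⟩ := Finset.mem_filter.1 hp
    rcases hS p hp with ⟨hp1, hp2⟩ | ⟨k, rfl⟩
    · exact Or.inl ⟨hp1, by simpa using (h.side hp1 hp2).1 k2⟩
    · refine Or.inr ⟨k, fun hk => ?_, rfl⟩
      have : k = 3 ∨ k = 4 ∨ k = 5 ∨ k = 6 :=
        (by decide : ∀ k : Fin 7, 3 ≤ k → k = 3 ∨ k = 4 ∨ k = 5 ∨ k = 6) k hk
      rcases this with rfl | rfl | rfl | rfl
      · exact h.nadj _ _ (by decide) k2
      · exact h.nadj _ _ (by decide) k2
      · exact h.nadj _ _ (by decide) k0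
      · exact h.nadj _ _ (by decide) k1
  let O : Finset E → Set E := fun σ =>
    if ∀ j, 3 ≤ j → v ε r c s j ∈ σ then {x | 2 / 3 < dep ε r x} else {x | dep ε r x < 1 / 3}
  have key : ∀ σ ∈ S.powerset, ∀ᶠ ρ in 𝓝[>] (0 : ℝ), Cl b S σ → (∃ i ≤ 2, v ε r c s i ∉ σ) →
      cthickening ρ K1 ∩ cthickening ρ (convexHull ℝ (σ : Set E)) ⊆ O σ := by
    intro σ _
    by_cases hyp : Cl b S σ ∧ ∃ i ≤ 2, v ε r c s i ∉ σ
    swap
    · exact Eventually.of_forall fun ρ k1 k2 => absurd ⟨k1, k2⟩ hyp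
    obtain ⟨hσ, i, hi, hi'⟩ := hyp
    refine (rb_thick (O := O σ) ((Finset.finite_toSet _).isCompact_convexHull ℝ)
      (σ.finite_toSet.isCompact_convexHull ℝ) ?_ fun x hx => ?_).mono fun ρ k _ _ => k
    · simp only [O]
      split_ifs
      · exact isOpen_lt continuous_const hc
      · exact isOpen_lt hc continuous_const
    obtain ⟨hx, hx2⟩ := hx
    simp only [O]
    split_ifs with hall
    · have e : dep ε r x = 1 := by
        refine dep_one hε hr h.κ0 (hX1 hx) (hull_subset_Rep (c := c) (fun p hp => ?_) hx2)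
        rcases hS p (hσ.1 hp) with ⟨hp1, hp2⟩ | ⟨k, rfl⟩
        · exact Or.inl ⟨hp1, by
            simpa using (h.side hp1 hp2).2 (hσ.2 _ hp _ (hall 5 (by decide)))⟩
        · refine Or.inr ⟨k, fun hk => ?_, rfl⟩
          have : k = 0 ∨ k = 1 ∨ k = 2 :=
            (by decide : ∀ k : Fin 7, k ≤ 2 → k = 0 ∨ k = 1 ∨ k = 2) k hk
          rcases this with rfl | rfl | rfl
          · exact h.nadj 5 _ (by decide) (hσ.2 _ (hall _ (by decide)) _ hp)
          · exact h.nadj 6 _ (by decide) (hσ.2 _ (hall _ (by decide)) _ hp)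
          · exact h.nadj 3 _ (by decide) (hσ.2 _ (hall _ (by decide)) _ hp)
      rw [mem_setOf_eq, e]
      norm_num
    · push Not at hall
      obtain ⟨j, hj, hj'⟩ := hall
      have e : dep ε r x = 0 := by
        refine dep_zero hε hr hi hj (hX1 hx) (hull_subset_Rep (c := c) (fun p hp => ?_) hx2)
        rcases hS p (hσ.1 hp) with ⟨hp1, -⟩ | ⟨k, rfl⟩
        · exact Or.inl ⟨hp1, by simp⟩
        · refine Or.inr ⟨k, ?_, rfl⟩
          rintro (rfl | rfl)
          · exact hi' hp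
          · exact hj' hp
      rw [mem_setOf_eq, e]
      norm_num
  have marg : ∀ p ∈ S, ∀ᶠ ρ in 𝓝[>] (0 : ℝ), ∀ q ∈ S, ‖p - q‖ < β → ‖p - q‖ + 2 * ρ < β := by
    intro p _
    refine (eventually_all_finset S).2 fun q _ => ?_
    by_cases k : ‖p - q‖ < β
    · exact (rb_ev 2 k).mono fun ρ k' _ => k'
    · exact Eventually.of_forall fun ρ k' => absurd k' k
  filter_upwards [(eventually_all_finset _).2 key, (eventually_all_finset _).2 marg, rb_ev 2 hβb,
    self_mem_nhdsWithin] with ρ key marg hρb hρ S' s1 s2 U' hU1 hU2 hz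
  have hρ0 : (0 : ℝ) < ρ := hρ
  have hb1 := h.β1
  refine ⟨fun e => ?_⟩
  choose! π hπ1 hπ2 using s1
  choose! ι hι1 hι2 using s2
  have tri : ∀ p q p' q' : E, ‖p' - p‖ ≤ ρ → ‖q' - q‖ ≤ ρ → ‖p' - q'‖ ≤ ‖p - q‖ + 2 * ρ :=
    fun p q p' q' k1 k2 => by
      have k3 : p' - q' = (p - q) + ((p' - p) - (q' - q)) := by abel
      rw [k3]
      linarith [norm_add_le (p - q) ((p' - p) - (q' - q)), norm_sub_le (p' - p) (q' - q)]
  let Y1 := cthickening ρ K1
  let Y2 := ⋃ σ ∈ {σ : Finset E | Cl b S σ ∧ ∃ i ≤ 2, v ε r c s i ∉ σ},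
    cthickening ρ (convexHull ℝ (σ : Set E))
  let D : E → ℂ := fun x => clamp (dep ε r x) * (2 * Real.pi * I)
  have hD : Continuous D :=
    (continuous_ofReal.comp (continuous_clamp.comp hc)).mul continuous_const
  let g : E → ℂ := fun x => if x ∈ Y1 then exp (D x) else 1
  have g1 : ∀ x ∈ Y1, g x = exp (D x) := fun x hx => if_pos hx
  have g2 : ∀ x ∈ Y2, g x = 1 := fun x hx => by
    by_cases hx1 : x ∈ Y1
    · rw [g1 x hx1]
      simp only [Y2, mem_iUnion] at hx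
      obtain ⟨σ, ⟨hσ, hi⟩, hx⟩ := hx
      have k := key σ (Finset.mem_powerset.2 hσ.1) hσ hi ⟨hx1, hx⟩
      simp only [O] at k
      split_ifs at k
      · simp [D, clamp_hi k]
      · simp [D, clamp_lo k]
    · exact if_neg hx1
  have hsub1 : ∀ σ, Cl b S σ → (∀ i ≤ 2, v ε r c s i ∈ σ) →
      cthickening ρ (convexHull ℝ (σ : Set E)) ⊆ Y1 :=
    fun σ hσ hall => cthickening_subset_of_subset _ (convexHull_mono fun p hp =>
      Finset.mem_filter.2 ⟨hσ.1 hp, hσ.2 _ hp _ (hall _ (by decide)),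
        hσ.2 _ hp _ (hall _ (by decide)), hσ.2 _ hp _ (hall _ (by decide))⟩)
  have hsub2 : ∀ σ, Cl b S σ → ∀ i ≤ 2, v ε r c s i ∉ σ →
      cthickening ρ (convexHull ℝ (σ : Set E)) ⊆ Y2 :=
    fun σ hσ i hi hi' => subset_biUnion_of_mem
      (u := fun σ : Finset E => cthickening ρ (convexHull ℝ (σ : Set E)))
      (show σ ∈ {σ : Finset E | Cl b S σ ∧ ∃ i ≤ 2, v ε r c s i ∉ σ} from ⟨hσ, i, hi, hi'⟩)
  have hsh : ∀ σ, Cl β S' σ → convexHull ℝ (σ : Set E) ⊆ shadow β S' :=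
    fun σ hσ x hx => mem_shadow.2 ⟨σ, hσ, hx⟩
  have hg : ContinuousOn g (shadow β S') := by
    refine ContinuousOn.mono (ContinuousOn.union_of_isClosed (s := Y1) (t := Y2)
      (ContinuousOn.congr (by fun_prop) g1) (continuousOn_const.congr g2)
      isClosed_cthickening ?_) fun x hx => ?_
    · refine Finite.isClosed_biUnion ((S.powerset.finite_toSet).subset fun σ hσ => ?_)
        fun σ _ => isClosed_cthickening
      exact Finset.mem_powerset.2 hσ.1.1
    · obtain ⟨σ, hσ, hx⟩ := mem_shadow.1 hx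
      have k1 : Cl b S (σ.image π) := by
        refine ⟨fun p hp => ?_, fun p hp q hq => ?_⟩
        · obtain ⟨p', hp', rfl⟩ := Finset.mem_image.1 hp
          exact hπ1 _ (hσ.1 hp')
        · obtain ⟨p', hp', rfl⟩ := Finset.mem_image.1 hp
          obtain ⟨q', hq', rfl⟩ := Finset.mem_image.1 hq
          have k2 := tri p' q' (π p') (π q') (by rw [norm_sub_rev]; exact hπ2 _ (hσ.1 hp'))
            (by rw [norm_sub_rev]; exact hπ2 _ (hσ.1 hq'))
          linarith [hσ.2 _ hp' _ hq']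
      have k2 : x ∈ cthickening ρ (convexHull ℝ ((σ.image π : Finset E) : Set E)) :=
        rb_hull (fun p' hp' => ⟨π p', Finset.mem_image_of_mem _ hp', hπ2 _ (hσ.1 hp')⟩) hx
      by_cases hall : ∀ i ≤ 2, v ε r c s i ∈ σ.image π
      · exact Or.inl (hsub1 _ k1 hall k2)
      · push Not at hall
        obtain ⟨i, hi, hi'⟩ := hall
        exact Or.inr (hsub2 _ k1 i hi hi' k2)
  obtain ⟨m, n, hmn, Φ, hΦ, eΦ⟩ := dep_of_equiv e g θ hg continuous_θ.continuousOn
    (fun x _ => by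
      simp only [g]
      split_ifs
      · exact exp_ne_zero _
      · exact one_ne_zero)
    (fun x hx => by
      obtain ⟨σ, hσ, hx⟩ := mem_shadow.1 hx
      obtain ⟨p, hp⟩ : (σ : Set E).Nonempty := (convexHull_nonempty_iff (𝕜 := ℝ)).1 ⟨x, hx⟩
      refine θ_ne_of_near (p := π p) ?_ ?_
      · rcases hS _ (hπ1 _ (hσ.1 hp)) with ⟨k, -⟩ | ⟨k, k'⟩
        · exact (norm_θ k).ge
        · rw [← k']; exact (h.near k).1
      · linarith [norm_sub_le_norm_sub_add_norm_sub x p (π p), hull_near hσ hp hx,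
          hπ2 _ (hσ.1 hp)])
  have hpre : ∀ σ : Finset E, IsPreconnected (convexHull ℝ (σ : Set E)) :=
    fun σ => (convex_convexHull ℝ _).isPreconnected
  have hmem : ∀ {σ : Finset E} {p : E}, p ∈ σ → p ∈ convexHull ℝ (σ : Set E) :=
    fun hp => subset_convexHull ℝ _ hp
  have pert : ∀ (J : Type) (T : Finset J) (f f' : J → E), (∀ i ∈ T, f i ∈ S) →
      (∀ i ∈ T, f' i ∈ S') → (∀ i ∈ T, ‖f' i - f i‖ ≤ ρ) →
      (∀ i ∈ T, ∀ j ∈ T, ‖f i - f j‖ < β) → Cl β S' (T.image f') ∧ Cl b S (T.image f) ∧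
        convexHull ℝ ((T.image f' : Finset E) : Set E) ⊆
          cthickening ρ (convexHull ℝ ((T.image f : Finset E) : Set E)) := by
    intro J T f f' k1 k2 k3 k4
    refine ⟨⟨fun p hp => ?_, fun p hp q hq => ?_⟩, ⟨fun p hp => ?_, fun p hp q hq => ?_⟩,
      rb_hull fun p hp => ?_⟩
    · obtain ⟨i, hi, rfl⟩ := Finset.mem_image.1 hp
      exact k2 i hi
    · obtain ⟨i, hi, rfl⟩ := Finset.mem_image.1 hp
      obtain ⟨j, hj, rfl⟩ := Finset.mem_image.1 hq
      exact (tri _ _ _ _ (k3 i hi) (k3 j hj)).trans_lt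
        (marg _ (k1 i hi) _ (k1 j hj) (k4 i hi j hj))
    · obtain ⟨i, hi, rfl⟩ := Finset.mem_image.1 hp
      exact k1 i hi
    · obtain ⟨i, hi, rfl⟩ := Finset.mem_image.1 hp
      obtain ⟨j, hj, rfl⟩ := Finset.mem_image.1 hq
      exact (k4 i hi j hj).trans hβb
    · obtain ⟨i, hi, rfl⟩ := Finset.mem_image.1 hp
      exact ⟨f i, Finset.mem_image_of_mem _ hi, k3 i hi⟩
  have hn : n = 0 := by
    have hstep : ∀ j ≤ N, Φ (ι (cir (φ 0))) - n * lg (φ 0) (ι (cir (φ 0))) =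
        Φ (ι (cir (φ j))) - n * lg (φ j) (ι (cir (φ j))) := by
      intro j
      induction j with
      | zero => exact fun _ => rfl
      | succ j ih =>
        intro hj
        have k0 : ∀ i ∈ ({j, j + 1} : Finset ℕ), cir (φ i) ∈ S := fun i hi => hcS i (by
          simp only [Finset.mem_insert, Finset.mem_singleton] at hi; omega)
        obtain ⟨c1, c2, c3⟩ := pert ℕ {j, j + 1} (fun i => cir (φ i)) (fun i => ι (cir (φ i))) k0
          (fun i hi => hι1 _ (k0 i hi)) (fun i hi => hι2 _ (k0 i hi)) (fun i hi i' hi' => by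
            have h4 := (norm_cir_le _ _).trans_lt (h2 j)
            simp only [Finset.mem_insert, Finset.mem_singleton] at hi hi'
            rcases hi with rfl | rfl <;> rcases hi' with rfl | rfl
            · simpa using hβ
            · rwa [norm_sub_rev]
            · exact h4
            · simpa using hβ)
        have h0 : v ε r c s 0 ∉ ({j, j + 1} : Finset ℕ).image fun i => cir (φ i) := fun hp => by
          obtain ⟨i, -, hi⟩ := Finset.mem_image.1 hp
          have : v ε r c s 0 ∈ M := hi ▸ cir_mem _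
          exact hε.ne' (this.2 6 (by decide))
        have m0 : ι (cir (φ j)) ∈ ({j, j + 1} : Finset ℕ).image fun i => ι (cir (φ i)) :=
          Finset.mem_image_of_mem (fun i => ι (cir (φ i))) (by simp)
        have m1 : ι (cir (φ (j + 1))) ∈ ({j, j + 1} : Finset ℕ).image fun i => ι (cir (φ i)) :=
          Finset.mem_image_of_mem (fun i => ι (cir (φ i))) (by simp)
        have near : ∀ x ∈ convexHull ℝ
            ((({j, j + 1} : Finset ℕ).image fun i => ι (cir (φ i)) : Finset E) : Set E),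
            ‖x - cir (φ j)‖ < 1 := fun x hx => by
          linarith [norm_sub_le_norm_sub_add_norm_sub x (ι (cir (φ j))) (cir (φ j)),
            hull_near c1 m0 hx, hι2 _ (k0 j (by simp))]
        rw [ih (by omega), rb_step (hpre _) (hΦ.mono (hsh _ c1)) (fun x hx => by
          rw [eΦ x (hsh _ c1 hx), g2 x (hsub2 _ c2 0 (by decide) h0 (c3 hx)), one_zpow, one_mul])
          near (hmem m0) (hmem m1), rb_log (near _ (hmem m1))
          (by linarith [hι2 _ (k0 (j + 1) (by simp))]) (by linarith [h2 j])]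
    have := hstep N le_rfl
    rw [h1, cir_add, rb_turn] at this
    have h5 : (n : ℂ) * (2 * Real.pi * I) = 0 := by linear_combination this
    exact_mod_cast (mul_eq_zero.1 h5).resolve_right two_pi_I_ne_zero
  subst hn
  have pU := fun T : Finset (Fin 11) => pert (Fin 11) T U U' (fun i _ => hUS i) (fun i _ => hU1 i)
    fun i _ => hU2 i
  have hin : ∀ (T : Finset (Fin 11)) (k : Fin 7), k.castAdd 4 ∈ T → v ε r c s k ∈ T.image U :=
    fun T k hk => hU k ▸ Finset.mem_image_of_mem _ hk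
  have hin' : ∀ (T : Finset (Fin 11)), ∀ i ∈ T,
      U' i ∈ convexHull ℝ ((T.image U' : Finset E) : Set E) :=
    fun T i hi => hmem (Finset.mem_image_of_mem _ hi)
  have no2 : ∀ T : Finset (Fin 11), Cl b S (T.image U) → 3 ∈ T → v ε r c s 2 ∉ T.image U :=
    fun T hT h3 hp => h.nadj 3 2 (by decide) (hT.2 _ (hin T 3 h3) _ hp)
  have hflat : ∀ T : Finset (Fin 11), (∀ i ∈ T, ∀ j ∈ T, ‖U i - U j‖ < β) → 3 ∈ T →
      ∀ x ∈ convexHull ℝ ((T.image U' : Finset E) : Set E), Φ x = Φ (U' 3) :=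
    fun T hT h3 x hx => by
      obtain ⟨c1, c2, c3⟩ := pU T hT
      exact const_of_exp (hpre _) (hΦ.mono (hsh _ c1)) (fun y hy => by
        rw [eΦ y (hsh _ c1 hy), g2 y (hsub2 _ c2 2 le_rfl (no2 T c2 h3) (c3 hy))]
        simp) hx (hin' T 3 h3)
  obtain ⟨z, z1, z2⟩ := hz
  rw [← Finset.coe_image] at z1 z2
  obtain ⟨c1, c2, c3⟩ := pU T1 a1
  have y1 : convexHull ℝ ((T1.image U' : Finset E) : Set E) ⊆ Y1 :=
    c3.trans (hsub1 _ c2 fun i hi => hin _ i (t1 i hi))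
  have m1 : (1 : Fin 11) ∈ T1 := t1 1 (by decide)
  have m2 : (3 : Fin 11) ∈ T2 := t2 3 (by decide)
  have m3 : (3 : Fin 11) ∈ T3 := by rw [t3]; decide
  have m4 : (1 : Fin 11) ∈ T3 := by rw [t3]; decide
  have k1 := const_of_exp (D := fun x => Φ x - m * D x) (hpre _)
    ((hΦ.mono (hsh _ c1)).sub (by fun_prop)) (fun y hy => by
      rw [exp_sub, eΦ y (hsh _ c1 hy), g1 y (y1 hy), exp_int_mul, zpow_zero, mul_one,
        div_self (zpow_ne_zero _ (exp_ne_zero _))]) z1 (hin' _ 1 m1)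
  have k2 := hflat _ a2 m2 _ z2
  have k3 := hflat _ a3 m3 _ (hin' _ 1 m4)
  have hd : clamp (dep ε r z) = 1 := by
    obtain ⟨-, d2, d3⟩ := pU T2 a2
    have k := key _ (Finset.mem_powerset.2 d2.1) d2 ⟨2, le_rfl, no2 _ d2 m2⟩ ⟨y1 z1, d3 z2⟩
    simp only [O] at k
    rw [if_pos fun j hj => hin _ j (t2 j hj)] at k
    exact clamp_hi k
  have k4 : clamp (dep ε r (U' 1)) = 0 := by
    obtain ⟨-, d2, d3⟩ := pU T3 a3
    have k := key _ (Finset.mem_powerset.2 d2.1) d2 ⟨2, le_rfl, no2 _ d2 m3⟩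
      ⟨y1 (hin' _ 1 m1), d3 (hin' _ 1 m4)⟩
    simp only [O] at k
    rw [if_neg fun hall => h.nadj 6 1 (by decide) (d2.2 _ (hall 6 (by decide)) _ (hin _ 1 m4))] at k
    exact clamp_lo k
  simp only [D] at k1
  rw [hd, k4, k2, k3] at k1
  have h5 : (m : ℂ) * (2 * Real.pi * I) = 0 := by
    push_cast at k1
    linear_combination -k1
  have h6 : m = 0 := by exact_mod_cast (mul_eq_zero.1 h5).resolve_right two_pi_I_ne_zero
  simp [h6] at hmn

end Pool.Agent.Work.MP_320b68_gt.Circ
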