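import Pool.Agent.Work.MP_320b68_gt.Rob2

/-!
An open set of samples of the circle whose shadows have an extra loop.
-/

namespace Pool.Agent.Work.MP_320b68_gt.Circ

open scoped ENNReal Topology NNReal RealInnerProductSpace
open Set Metric Filter

/-- The seven points, two of them moved by `τ`, and four points of the circle. -/
noncomputable def uu (ε r c s a κ τ : ℝ) : Fin 11 → E :=
  ![!₂[1, -(r * s), 3 * ε, 0, -(8 * r * ε), 0, ε, r * ε],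
    !₂[1, -(r * s) - τ, -(3 * ε), 0, 0, 0, 0, 0],
    !₂[c, s, 0, 0, 4 * ε, 0, 0, 0],
    !₂[1, r * s, 0, 4 * ε, 0, 0, ε, 0],
    !₂[1, r * s + τ, 0, -(4 * ε), 0, 0, 0, 0],
    !₂[c, -s, -(3 * ε), 0, 0, ε, 0, ε],
    !₂[c, -s, 3 * ε, 0, 0, -ε, 0, 0],
    !₂[c, s, 0, 0, 0, 0, 0, 0],
    !₂[a, κ, 0, 0, 0, 0, 0, 0],
    !₂[c, -s, 0, 0, 0, 0, 0, 0],
    !₂[a, -κ, 0, 0, 0, 0, 0, 0]]

variable {b κ ε r c s a β : ℝ}

theorem uu_v (k : Fin 7) : uu ε r c s a κ 0 (k.castAdd 4) = v ε r c s k := by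
  fin_cases k <;> simp [uu, v, Fin.castAdd, Fin.castLE]

theorem uu_move {τ : ℝ} (hτ : 0 ≤ τ) (k : Fin 11) :
    ‖uu ε r c s a κ τ k - uu ε r c s a κ 0 k‖ ≤ τ := by
  refine le_of_sq_le_sq ?_ hτ
  rw [norm_sub_sq]
  have := sq_nonneg τ
  fin_cases k <;> simp [uu] <;> linarith

theorem pl_mem {x y : ℝ} (h : x ^ 2 + y ^ 2 = 1) : (!₂[x, y, 0, 0, 0, 0, 0, 0] : E) ∈ M :=
  ⟨h, fun j hj => by fin_cases j <;> first | rfl | simp at hj⟩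

theorem uu_kind (h : Par b κ ε r c s) (ha : a ^ 2 + κ ^ 2 = 1) (hκ : 4 * κ ≤ b) (k : Fin 11) :
    (uu ε r c s a κ 0 k ∈ M ∧ κ ≤ |uu ε r c s a κ 0 k 1|) ∨ ∃ j, v ε r c s j = uu ε r c s a κ 0 k := by
  have h1 := h.facts.2.2.2.2.2.2.2.2.2
  have h2 := h.κ0
  have h3 := h.s0
  have h4 := h.cs
  by_cases hk : (k : ℕ) < 7
  · exact Or.inr ⟨⟨k, hk⟩, (uu_v ⟨k, hk⟩).symm⟩
  · have : k = 7 ∨ k = 8 ∨ k = 9 ∨ k = 10 :=
      (by decide : ∀ k : Fin 11, ¬ (k : ℕ) < 7 → k = 7 ∨ k = 8 ∨ k = 9 ∨ k = 10) k hk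
    rcases this with rfl | rfl | rfl | rfl
    · exact Or.inl ⟨pl_mem h4, le_trans (by linarith) (le_abs_self s)⟩
    · exact Or.inl ⟨pl_mem ha, le_abs_self κ⟩
    · exact Or.inl ⟨pl_mem (by simpa using h4), le_trans (by linarith) (neg_le_abs (-s))⟩
    · exact Or.inl ⟨pl_mem (by simpa using ha), le_trans (by linarith) (neg_le_abs (-κ))⟩

theorem uu_adj (h : Par b κ ε r c s) (hβ : 0 < β) (hβb : β ^ 2 = b ^ 2 - ε ^ 2) (ha0 : 0 < a)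
    (ha : a ^ 2 + κ ^ 2 = 1) (hκ : 4 * κ ≤ b) (i j : Fin 11) (hij : i < j)
    (hT : (i ∈ ({0, 1, 2, 7, 8} : Finset (Fin 11)) ∧ j ∈ ({0, 1, 2, 7, 8} : Finset (Fin 11))) ∨
      (i ∈ ({3, 4, 5, 6, 9, 10} : Finset (Fin 11)) ∧ j ∈ ({3, 4, 5, 6, 9, 10} : Finset (Fin 11))) ∨
      (i = 1 ∧ j = 3)) : ‖uu ε r c s a κ 0 i - uu ε r c s a κ 0 j‖ < β := by
  obtain ⟨hb, hr, h1, h2, ⟨h3, h4⟩, ⟨h5, h6⟩, ⟨h7, h8⟩, ⟨h9, h10⟩, hc0, hbs⟩ := h.facts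
  have h11 := h.c0
  have h12 := h.cs
  have k0 := h.κ0
  have k1 : a ≤ 1 := by nlinarith [sq_nonneg κ]
  have k2 : 1 - a ≤ κ ^ 2 := by nlinarith
  have k3 : c ≤ 1 := by nlinarith
  have k4 : c - c * a ≤ κ ^ 2 := by nlinarith
  have k5 : 2 * κ ^ 2 ≤ s * κ := by nlinarith
  have k6 : 2 * (r * s * κ) ≤ κ ^ 2 + r ^ 2 * s ^ 2 := by nlinarith [sq_nonneg (κ - r * s)]
  have k7 : 16 * κ ^ 2 ≤ b ^ 2 := by nlinarith
  have k8 : 0 ≤ κ ^ 2 := sq_nonneg κ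
  refine lt_of_sq hβ ?_
  rw [norm_sub_sq, hβb]
  fin_cases i <;> fin_cases j <;>
    first
    | exact absurd hij (by decide)
    | exact absurd hT (by decide)
    | (simp [uu]; linarith only [h1, h2, h10, h4, h6, h8, h11, h12, ha, k2, k4, k5, k6, k7, k8])

theorem uu_adj' (h : Par b κ ε r c s) (hβ : 0 < β) (hβb : β ^ 2 = b ^ 2 - ε ^ 2) (ha0 : 0 < a)
    (ha : a ^ 2 + κ ^ 2 = 1) (hκ : 4 * κ ≤ b) (T : Finset (Fin 11))
    (hT : ∀ i ∈ T, ∀ j ∈ T, i < j →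
      (i ∈ ({0, 1, 2, 7, 8} : Finset (Fin 11)) ∧ j ∈ ({0, 1, 2, 7, 8} : Finset (Fin 11))) ∨
      (i ∈ ({3, 4, 5, 6, 9, 10} : Finset (Fin 11)) ∧ j ∈ ({3, 4, 5, 6, 9, 10} : Finset (Fin 11))) ∨
      (i = 1 ∧ j = 3)) :
    ∀ i ∈ T, ∀ j ∈ T, ‖uu ε r c s a κ 0 i - uu ε r c s a κ 0 j‖ < β := by
  intro i hi j hj
  rcases lt_trichotomy i j with k | rfl | k
  · exact uu_adj h hβ hβb ha0 ha hκ i j k (hT i hi j hj k)
  · simpa using hβ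
  · rw [norm_sub_rev]
    exact uu_adj h hβ hβb ha0 ha hκ j i k (hT j hj i hi k)

theorem inner8 (y x : E) : ⟪y, x⟫ = y 0 * x 0 + y 1 * x 1 + y 2 * x 2 + y 3 * x 3 + y 4 * x 4 +
    y 5 * x 5 + y 6 * x 6 + y 7 * x 7 := by
  simp [PiLp.inner_apply, Fin.sum_univ_eight, mul_comm]

theorem uu_cross (hε : 0 < ε) (hr : 0 < r) (hs : 0 < s) (hac : a ≠ c) {u : ℝ} (hu : 0 < u) (y : E)
    (h : ∀ i ∈ ({0, 1, 2, 7, 8} : Finset (Fin 11)), ∀ j ∈ ({3, 4, 5, 6, 9, 10} : Finset (Fin 11)),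
      ⟪y, uu ε r c s a κ (u * (s + κ)) j⟫ ≤ ⟪y, uu ε r c s a κ (u * (s + κ)) i⟫) : y = 0 := by
  have e := rb_eq _ _ (fun i => ⟪y, uu ε r c s a κ (u * (s + κ)) i⟫)
    ![1, 1, 2 * r, 1, 1, r, r, u, u, u, u] (fun i => by fin_cases i <;> simp <;> positivity)
    (by simp; ring) (by simp [inner8, uu]; ring) h
  have e1 := e 7 (by decide) 9 (by decide)
  have e0 := e 8 (by decide) 9 (by decide)
  have e2 := e 1 (by decide) 9 (by decide)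
  have e4 := e 2 (by decide) 9 (by decide)
  have e3 := e 7 (by decide) 4 (by decide)
  have e5 := e 7 (by decide) 6 (by decide)
  have e6 := e 7 (by decide) 3 (by decide)
  have e7 := e 7 (by decide) 5 (by decide)
  simp only [inner8] at e0 e1 e2 e3 e4 e5 e6 e7
  simp [uu] at e0 e1 e2 e3 e4 e5 e6 e7
  have z1 : y 1 = 0 := mul_right_cancel₀ hs.ne' (by linarith)
  have z0 : y 0 = 0 := mul_right_cancel₀ (sub_ne_zero.2 hac) (by rw [z1] at e0; linarith)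
  simp only [z0, z1] at e2 e3 e4 e5 e6 e7
  have z2 : y 2 = 0 := mul_right_cancel₀ hε.ne' (by linarith)
  have z3 : y 3 = 0 := mul_right_cancel₀ hε.ne' (by linarith)
  have z4 : y 4 = 0 := mul_right_cancel₀ hε.ne' (by linarith)
  simp only [z2, z3] at e5 e6 e7
  have z5 : y 5 = 0 := mul_right_cancel₀ hε.ne' (by linarith)
  have z6 : y 6 = 0 := mul_right_cancel₀ hε.ne' (by linarith)
  have z7 : y 7 = 0 := mul_right_cancel₀ hε.ne' (by rw [z5] at e7; linarith)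
  ext j
  fin_cases j <;> simp [z0, z1, z2, z3, z4, z5, z6, z7]

theorem rb_par {β κ η : ℝ} (h0 : 0 < β) (h1 : β < 1) (hκ : 0 < κ) (hη : 0 < η) :
    ∃ b ε r c s, Par b κ ε r c s ∧ 5 * ε ≤ η ∧ β < b ∧ β ^ 2 = b ^ 2 - ε ^ 2 := by
  obtain ⟨ε, hε, e1, e2, e3, e4⟩ : ∃ ε : ℝ, 0 < ε ∧ ε ≤ β / 10 ∧ ε ≤ κ / 3 ∧ ε ≤ η / 5 ∧
      ε ≤ (1 - β) / 2 :=
    ⟨min (β / 10) (min (κ / 3) (min (η / 5) ((1 - β) / 2))),
      lt_min (by positivity) (lt_min (by positivity) (lt_min (by positivity) (by linarith))),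
      min_le_left _ _, (min_le_right _ _).trans (min_le_left _ _),
      (min_le_right _ _).trans ((min_le_right _ _).trans (min_le_left _ _)),
      (min_le_right _ _).trans ((min_le_right _ _).trans (min_le_right _ _))⟩
  have b1 : √(β ^ 2 + ε ^ 2) ^ 2 = β ^ 2 + ε ^ 2 := Real.sq_sqrt (by positivity)
  have b2 : β < √(β ^ 2 + ε ^ 2) := Real.lt_sqrt_of_sq_lt (by nlinarith)
  have b3 : √(β ^ 2 + ε ^ 2) < 1 := by
    rw [Real.sqrt_lt' one_pos]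
    nlinarith
  have h2 : 0 < β ^ 2 - 29 * ε ^ 2 := by nlinarith
  have h3 : β ^ 2 - 29 * ε ^ 2 < 1 := by nlinarith
  have h4 : 0 < 1 - (1 - (β ^ 2 - 29 * ε ^ 2) / 2) ^ 2 := by nlinarith
  refine ⟨√(β ^ 2 + ε ^ 2), ε, ε ^ 2 / 100, 1 - (β ^ 2 - 29 * ε ^ 2) / 2,
    √(1 - (1 - (β ^ 2 - 29 * ε ^ 2) / 2) ^ 2), ⟨hε, b3, by linarith, by ring, by rw [b1]; ring, ?_,
    Real.sqrt_pos.2 h4, hκ, by nlinarith⟩, by linarith, b2, by rw [b1]; ring⟩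
  rw [Real.sq_sqrt h4.le]
  ring

theorem rb_main {β η : ℝ} (h0 : 0 < β) (h1 : β < 1) (hη : 0 < η) :
    ∃ (S₀ : Finset E) (ρ : ℝ), 0 < ρ ∧ ∀ S : Finset E,
      hausdorffEDist (S : Set E) (S₀ : Set E) < ENNReal.ofReal ρ →
        hausdorffEDist (S : Set E) M < ENNReal.ofReal η ∧
          IsEmpty (ContinuousMap.HomotopyEquiv (shadow β S) M) := by
  classical
  obtain ⟨N, φ, g1, g2, g3, g4⟩ := rb_grid (show 0 < min β (η / 2) from lt_min h0 (by positivity))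
  obtain ⟨j0, -, hj0⟩ := Finset.exists_min_image (Finset.range (N + 1))
    (fun j => |cir (φ j) 1|) ⟨0, by simp⟩
  set κ := min |cir (φ j0) 1| (β / 4) with hκ'
  have hκ : 0 < κ := lt_min (g3 j0) (by positivity)
  have hκβ : κ ≤ β / 4 := min_le_right _ _
  obtain ⟨b, ε, r, c, s, hP, hε, hβb, hb2⟩ := rb_par h0 h1 hκ (half_pos hη)
  have hk1 : 0 < 1 - κ ^ 2 := by nlinarith
  set a := √(1 - κ ^ 2) with ha'
  have ha0 : 0 < a := Real.sqrt_pos.2 hk1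
  have ha : a ^ 2 + κ ^ 2 = 1 := by rw [Real.sq_sqrt hk1.le]; ring
  have hκb : 4 * κ ≤ b := by linarith
  have hbs := hP.facts.2.2.2.2.2.2.2.2.2
  have hcs := hP.cs
  have hs0 := hP.s0
  have hac : a ≠ c := fun e => by rw [e] at ha; nlinarith
  have hs1 : s ≤ 1 := by nlinarith [sq_nonneg c]
  let S₁ : Finset E := (Finset.range (N + 1)).image (fun j => cir (φ j)) ∪
    Finset.univ.image (uu ε r c s a κ 0)
  have hS : ∀ p ∈ S₁, (p ∈ M ∧ κ ≤ |p 1|) ∨ ∃ k, v ε r c s k = p := fun p hp => by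
    rcases Finset.mem_union.1 hp with hp | hp
    · obtain ⟨j, hj, rfl⟩ := Finset.mem_image.1 hp
      exact Or.inl ⟨cir_mem _, (min_le_left _ _).trans (hj0 j hj)⟩
    · obtain ⟨k, -, rfl⟩ := Finset.mem_image.1 hp
      exact uu_kind hP ha hκb k
  have hcS : ∀ j ≤ N, cir (φ j) ∈ S₁ := fun j hj => Finset.mem_union_left _
    (Finset.mem_image_of_mem (fun j => cir (φ j)) (Finset.mem_range.2 (by omega)))
  have hUS : ∀ k, uu ε r c s a κ 0 k ∈ S₁ := fun k => Finset.mem_union_right _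
    (Finset.mem_image_of_mem _ (Finset.mem_univ k))
  obtain ⟨ρ0, ⟨hne, hρη⟩, hρ0⟩ := (((rb_not_equiv hP h0 hβb g1
    (fun j => (g2 j).trans_le (min_le_left _ _)) S₁ hS hcS _ hUS uu_v {0, 1, 2, 7, 8}
    {3, 4, 5, 6, 9, 10} {1, 3} (by decide) (by decide) rfl
    (uu_adj' hP h0 hb2 ha0 ha hκb _ (by decide)) (uu_adj' hP h0 hb2 ha0 ha hκb _ (by decide))
    (uu_adj' hP h0 hb2 ha0 ha hκb _ (by decide))).and (rb_ev 4 hη)).and
      self_mem_nhdsWithin).exists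
  have hρ0' : (0 : ℝ) < ρ0 := hρ0
  have hu : 0 < ρ0 / 4 := by positivity
  have hτ0 : 0 ≤ ρ0 / 4 * (s + κ) := by positivity
  have hτ : ρ0 / 4 * (s + κ) ≤ ρ0 / 2 := by nlinarith
  obtain ⟨ρ, ⟨hcr, hρρ⟩, hρ⟩ := (((rb_cross {0, 1, 2, 7, 8} {3, 4, 5, 6, 9, 10}
    (uu ε r c s a κ (ρ0 / 4 * (s + κ))) (i0 := 0) (j0 := 3) (by decide) (by decide)
    (uu_cross hP.ε0 hP.facts.2.1 hs0 hac hu)).and (rb_ev 2 hρ0')).and self_mem_nhdsWithin).exists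
  have hρ' : (0 : ℝ) < ρ := hρ
  refine ⟨S₁ ∪ Finset.univ.image (uu ε r c s a κ (ρ0 / 4 * (s + κ))), ρ, hρ', fun S hd => ?_⟩
  have d1 : ∀ p' ∈ S, ∃ p ∈ S₁, ‖p' - p‖ ≤ ρ0 := fun p' hp' => by
    obtain ⟨p, hp, k⟩ := exists_edist_lt_of_hausdorffEDist_lt (Finset.mem_coe.2 hp') hd
    rw [edist_lt_ofReal, dist_eq_norm] at k
    rcases Finset.mem_union.1 hp with hp | hp
    · exact ⟨p, hp, by linarith⟩
    · obtain ⟨i, -, rfl⟩ := Finset.mem_image.1 hp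
      exact ⟨_, hUS i, by
        linarith [norm_sub_le_norm_sub_add_norm_sub p' (uu ε r c s a κ (ρ0 / 4 * (s + κ)) i)
          (uu ε r c s a κ 0 i), uu_move (ε := ε) (r := r) (c := c) (s := s) (a := a) (κ := κ) hτ0 i]⟩
  have d2 : ∀ p ∈ S₁ ∪ Finset.univ.image (uu ε r c s a κ (ρ0 / 4 * (s + κ))),
      ∃ p' ∈ S, ‖p' - p‖ ≤ ρ := fun p hp => by
    rw [hausdorffEDist_comm] at hd
    obtain ⟨p', hp', k⟩ := exists_edist_lt_of_hausdorffEDist_lt (Finset.mem_coe.2 hp) hd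
    rw [edist_lt_ofReal, dist_comm, dist_eq_norm] at k
    exact ⟨p', hp', k.le⟩
  have d3 : ∀ p ∈ S₁, ∃ p' ∈ S, ‖p' - p‖ ≤ ρ0 := fun p hp => by
    obtain ⟨p', k1, k2⟩ := d2 p (Finset.mem_union_left _ hp)
    exact ⟨p', k1, by linarith⟩
  choose U' u1 u2 using fun k => d2 _
    (Finset.mem_union_right _ (Finset.mem_image_of_mem _ (Finset.mem_univ k)))
  refine ⟨lt_of_le_of_lt (hausdorffEDist_le_of_mem_edist (r := ENNReal.ofReal (3 * η / 4))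
    (fun p hp => ?_) fun p hp => ?_) ((ENNReal.ofReal_lt_ofReal_iff hη).2 (by linarith)),
    hne S d1 d3 U' u1 (fun k => ?_) (hcr U' u2)⟩
  · obtain ⟨q, hq, k⟩ := d1 p hp
    obtain ⟨w, hw, k'⟩ : ∃ w ∈ M, ‖q - w‖ ≤ η / 2 := by
      rcases hS q hq with ⟨k1, -⟩ | ⟨j, rfl⟩
      · exact ⟨q, k1, by simpa using (half_pos hη).le⟩
      · obtain ⟨w, hw, k2⟩ := (hP.near j).2
        exact ⟨w, hw, k2.trans hε⟩
    refine ⟨w, hw, ?_⟩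
    rw [edist_dist, dist_eq_norm]
    exact ENNReal.ofReal_le_ofReal (by linarith [norm_sub_le_norm_sub_add_norm_sub p q w])
  · obtain ⟨j, hj, k⟩ := g4 p hp
    obtain ⟨p', k1, k2⟩ := d3 _ (hcS j hj)
    refine ⟨p', k1, ?_⟩
    rw [edist_dist, dist_eq_norm]
    rw [norm_sub_rev] at k2
    exact ENNReal.ofReal_le_ofReal (by
      linarith [norm_sub_le_norm_sub_add_norm_sub p (cir (φ j)) p', min_le_right β (η / 2)])
  · linarith [norm_sub_le_norm_sub_add_norm_sub (U' k) (uu ε r c s a κ (ρ0 / 4 * (s + κ)) k)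
      (uu ε r c s a κ 0 k), uu_move (ε := ε) (r := r) (c := c) (s := s) (a := a) (κ := κ) hτ0 k,
      u2 k]

end Pool.Agent.Work.MP_320b68_gt.Circ
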